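import Pool.Agent.NUF.Gas.Uniq

open Polynomial Filter Topology

namespace NUGas

variable {η n' : ℂ}

lemma gen_pow_mul_of (hη : η ^ 4 = -1) {x : ℂ} {X : List ℂ} (h : Gen η (x :: X)) {k : ℕ}
    (hk : k % 8 ≠ 0) (hk1 : (k + 1) % 8 ≠ 0) (hk7 : (k + 7) % 8 ≠ 0) :
    Good η (η ^ k * x) (x :: X) := good_scale hη h hk hk1 hk7

lemma Good.perm {t : ℂ} {X X' : List ℂ} (h : X.Perm X') (hX : Good η t X) : Good η t X' :=
  fun x hx => hX x (h.mem_iff.2 hx)

/-- values at the special points agree -/
lemma special (hη : η ^ 4 = -1) {W₁ W₂ : List ℂ → List ℂ → ℂ} (h₁ : Data η n' W₁)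
    (h₂ : Data η n' W₂) {X Y : List ℂ} (hX : Gen η X) (hY : Gen η Y)
    (ih : ∀ X' Y' : List ℂ, X'.length + Y'.length < X.length + Y.length + 1 →
      Gen η X' → Gen η Y' → W₁ X' Y' = W₂ X' Y')
    {x : ℂ} (hx : x ∈ X) {k : ℕ} (hk : k = 3 ∨ k = 5 ∨ k = 2 ∨ k = 6) :
    W₁ (η ^ k * x :: X) Y = W₂ (η ^ k * x :: X) Y ∧ Good η (η ^ k * x) X := by
  obtain ⟨X', hX'⟩ : ∃ X', X.Perm (x :: X') := ⟨X.erase x, List.perm_cons_erase hx⟩
  have hg : Gen η (x :: X') := hX.perm hη hX'
  have hlen : X.length = X'.length + 1 := by rw [hX'.length_eq]; rfl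
  have e1 : W₁ (η ^ k * x :: X) Y = W₁ (η ^ k * x :: x :: X') Y := h₁.perm Y (hX'.cons _)
  have e2 : W₂ (η ^ k * x :: X) Y = W₂ (η ^ k * x :: x :: X') Y := h₂.perm Y (hX'.cons _)
  have h8 := eta8 hη
  rcases hk with rfl | rfl | rfl | rfl
  · refine ⟨?_, (good_scale hη hg (by norm_num) (by norm_num) (by norm_num)).perm hX'.symm⟩
    rw [e1, e2, h₁.cross x X' Y hg hY, h₂.cross x X' Y hg hY,
      ih X' Y (by omega) hg.tail hY]
  · refine ⟨?_, (good_scale hη hg (by norm_num) (by norm_num) (by norm_num)).perm hX'.symm⟩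
    have hx3 : η ^ 3 * (η ^ 5 * x) = x := by
      rw [← mul_assoc, ← pow_add]; norm_num; rw [h8, one_mul]
    have hg5 := hg.scale hη 5
    rw [e1, e2, h₁.perm Y (List.Perm.swap _ _ _), h₂.perm Y (List.Perm.swap _ _ _)]
    have c1 := h₁.cross (η ^ 5 * x) X' Y hg5 hY
    have c2 := h₂.cross (η ^ 5 * x) X' Y hg5 hY
    rw [hx3] at c1 c2
    rw [c1, c2, ih X' Y (by omega) hg.tail hY]
  · refine ⟨?_, (good_scale hη hg (by norm_num) (by norm_num) (by norm_num)).perm hX'.symm⟩
    rw [e1, e2, h₁.fuse x X' Y hg hY, h₂.fuse x X' Y hg hY]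
    have hg1 := hg.scale hη 1
    rw [pow_one] at hg1
    rw [ih (η * x :: X') Y (by simp; omega) hg1 hY]
  · refine ⟨?_, (good_scale hη hg (by norm_num) (by norm_num) (by norm_num)).perm hX'.symm⟩
    have hx3 : η ^ 2 * (η ^ 6 * x) = x := by
      rw [← mul_assoc, ← pow_add]; norm_num; rw [h8, one_mul]
    have hg5 := hg.scale hη 6
    rw [e1, e2, h₁.perm Y (List.Perm.swap _ _ _), h₂.perm Y (List.Perm.swap _ _ _)]
    have c1 := h₁.fuse (η ^ 6 * x) X' Y hg5 hY
    have c2 := h₂.fuse (η ^ 6 * x) X' Y hg5 hY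
    rw [hx3] at c1 c2
    have hg7 := hg5.scale hη 1
    rw [pow_one] at hg7
    rw [c1, c2, ih (η * (η ^ 6 * x) :: X') Y (by simp; omega) hg7 hY]

/-- one step: the difference is a multiple of the node polynomial -/
lemma diff_eq (hη : η ^ 4 = -1) {W₁ W₂ : List ℂ → List ℂ → ℂ} (h₁ : Data η n' W₁)
    (h₂ : Data η n' W₂) {X Y : List ℂ} (hX : Gen η X) (hY : Gen η Y)
    (ih : ∀ X' Y' : List ℂ, X'.length + Y'.length < X.length + Y.length + 1 →
      Gen η X' → Gen η Y' → W₁ X' Y' = W₂ X' Y') (hle : Y.length ≤ X.length + 1) :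
    ∃ c : ℂ, (Y.length ≤ X.length → c = 0) ∧
      ∀ t, Good η t X → W₁ (t :: X) Y - W₂ (t :: X) Y = c * (node η X).eval t := by
  obtain ⟨P₁, d₁, t₁, b₁, v₁⟩ := h₁.poly X Y hX hY
  obtain ⟨P₂, d₂, t₂, b₂, v₂⟩ := h₂.poly X Y hX hY
  have hW := ih X Y (by omega) hX hY
  set d := P₁ - P₂ with hd
  have hdeg : d.natDegree ≤ 2 * (X.length + Y.length) :=
    (natDegree_sub_le _ _).trans (max_le d₁ d₂)
  have htop : d.coeff (2 * (X.length + Y.length)) = 0 := by
    rw [hd, coeff_sub, t₁, t₂, hW, sub_self]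
  have hbot : d.coeff 0 = 0 := by rw [hd, coeff_sub, b₁, b₂, hW, sub_self]
  have hroots : ∀ t ∈ rts η X, d.eval t = 0 := by
    intro t ht
    rcases mem_rts ht with rfl | ⟨x, hx, h⟩
    · rw [← coeff_zero_eq_eval_zero]; exact hbot
    · obtain ⟨k, hk, rfl⟩ : ∃ k, (k = 3 ∨ k = 5 ∨ k = 2 ∨ k = 6) ∧ t = η ^ k * x := by
        rcases h with h | h | h | h
        · exact ⟨3, by simp, h⟩
        · exact ⟨5, by simp, h⟩
        · exact ⟨2, by simp, h⟩
        · exact ⟨6, by simp, h⟩
      obtain ⟨hv, hg⟩ := special hη h₁ h₂ hX hY ih hx hk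
      rw [hd, eval_sub, ← v₁ _ hg, ← v₂ _ hg, hv, sub_self]
  obtain ⟨R, hR⟩ := node_dvd hη hX hroots
  have hval : ∀ t, Good η t X → W₁ (t :: X) Y - W₂ (t :: X) Y = d.eval t := by
    intro t ht
    rw [hd, eval_sub, v₁ t ht, v₂ t ht]
  rcases eq_or_ne d 0 with h0 | h0
  · exact ⟨0, fun _ => rfl, fun t ht => by rw [hval t ht, h0]; simp⟩
  · have hR0 : R ≠ 0 := by rintro rfl; rw [mul_zero] at hR; exact h0 hR
    have hlt : d.natDegree < 2 * (X.length + Y.length) := by
      refine lt_of_le_of_ne hdeg fun h => ?_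
      apply h0
      rw [← leadingCoeff_eq_zero, leadingCoeff, h, htop]
    have hsum : d.natDegree = (4 * X.length + 1) + R.natDegree := by
      rw [hR, (node_monic X).natDegree_mul' hR0, node_natDegree]
    have hR1 : R.natDegree = 0 := by omega
    have hc : R = C (R.coeff 0) := eq_C_of_natDegree_eq_zero hR1
    refine ⟨R.coeff 0, fun h => ?_, fun t ht => ?_⟩
    · exfalso; omega
    · rw [hval t ht, hR, eval_mul]
      rw [hc]; simp [mul_comm]

lemma node_eval_ne (hη : η ^ 4 = -1) {p : ℂ} {X : List ℂ} (h : Gen η (p :: X)) :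
    (node η X).eval p ≠ 0 := by
  have hn := not_mem_rts hη h 0
  rw [pow_zero, one_mul] at hn
  unfold node
  revert hn
  generalize rts η X = L
  intro hn
  induction L with
  | nil => simp
  | cons a L ih =>
    rw [List.map_cons, List.prod_cons, eval_mul]
    simp only [List.mem_cons, not_or] at hn
    refine mul_ne_zero ?_ (ih hn.2)
    simpa [sub_eq_zero] using hn.1

lemma tendsto_node (L : List ℂ) :
    Tendsto (fun T : ℝ => ((L.map (fun a => Polynomial.X - C a)).prod : ℂ[X]).eval (T : ℂ) /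
      (T : ℂ) ^ L.length) atTop (𝓝 1) := by
  induction L with
  | nil => simp
  | cons a L ih =>
    have h1 : Tendsto (fun T : ℝ => 1 - a * ((T : ℂ))⁻¹) atTop (𝓝 (1 - a * 0)) := by
      refine tendsto_const_nhds.sub (tendsto_const_nhds.mul ?_)
      have : Tendsto (fun T : ℝ => ((T⁻¹ : ℝ) : ℂ)) atTop (𝓝 ((0 : ℝ) : ℂ)) :=
        (Complex.continuous_ofReal.tendsto 0).comp tendsto_inv_atTop_zero
      simpa using this
    have h2 := h1.mul ih
    rw [mul_zero, sub_zero, one_mul] at h2
    refine h2.congr' ?_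
    filter_upwards [eventually_gt_atTop (0 : ℝ)] with T hT
    have hT' : (T : ℂ) ≠ 0 := by exact_mod_cast hT.ne'
    rw [List.map_cons, List.prod_cons, eval_mul, List.length_cons]
    simp only [eval_sub, eval_X, eval_C]
    field_simp
    ring

lemma norm_eta (hη : η ^ 4 = -1) : ‖η‖ = 1 := Complex.norm_eq_one_of_pow_eq_one (eta8 hη) (by norm_num)

lemma eventually_gen (hη : η ^ 4 = -1) {X : List ℂ} (hX : Gen η X) :
    ∀ᶠ T : ℝ in atTop, Gen η ((T : ℂ) :: X) := by
  have h : ∀ᶠ T : ℝ in atTop, ∀ x ∈ X, ‖x‖ < T := by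
    clear hX
    induction X with
    | nil => simp
    | cons a L ih =>
      filter_upwards [ih, eventually_gt_atTop ‖a‖] with T h1 h2
      intro x hx
      rcases List.mem_cons.1 hx with rfl | hx
      · exact h2
      · exact h1 x hx
  filter_upwards [h, eventually_gt_atTop (0 : ℝ)] with T hT h0
  refine ⟨?_, List.pairwise_cons.2 ⟨?_, hX.2⟩⟩
  · intro x hx
    rcases List.mem_cons.1 hx with rfl | hx
    · exact_mod_cast h0.ne'
    · exact hX.1 x hx
  · intro x hx k hk
    have := hT x hx
    rw [← hk, norm_mul, norm_pow, norm_eta hη, one_pow, one_mul, Complex.norm_real,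
      Real.norm_of_nonneg h0.le] at this
    exact lt_irrefl _ this

/-- **Uniqueness** -/
theorem uniq (hη : η ^ 4 = -1) {W₁ W₂ : List ℂ → List ℂ → ℂ} (h₁ : Data η n' W₁)
    (h₂ : Data η n' W₂) : ∀ X Y : List ℂ, Gen η X → Gen η Y → W₁ X Y = W₂ X Y := by
  suffices H : ∀ n : ℕ, ∀ X Y : List ℂ, X.length + Y.length = n → Gen η X → Gen η Y →
      W₁ X Y = W₂ X Y from fun X Y => H _ X Y rfl
  intro n
  induction n using Nat.strong_induction_on with
  | _ n ih =>
  -- the case `|Y| < |X|`
  have key : ∀ X Y : List ℂ, X.length + Y.length = n → Y.length < X.length → Gen η X → Gen η Y →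
      W₁ X Y = W₂ X Y := by
    intro X Y hn hlt hX hY
    rcases X with _ | ⟨p, X⟩
    · simp at hlt
    · simp only [List.length_cons] at hn hlt
      obtain ⟨c, hc, hv⟩ := diff_eq hη h₁ h₂ hX.tail hY
        (fun X' Y' h => ih _ (by omega) X' Y' rfl) (by omega)
      have := hv p (hX.good hη)
      rw [hc (by omega), zero_mul, sub_eq_zero] at this
      exact this
  intro X Y hn hX hY
  rcases lt_trichotomy Y.length X.length with hlt | heq | hgt
  · exact key X Y hn hlt hX hY
  · rcases X with _ | ⟨p, X⟩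
    · rw [List.length_nil, List.length_eq_zero_iff] at heq
      rw [heq, h₁.nil, h₂.nil]
    · rcases Y with _ | ⟨q, Y⟩
      · simp at heq
      · simp only [List.length_cons] at hn heq
        have hlen : Y.length = X.length := by omega
        -- polynomial in the first line, for every generic second line
        have A : ∀ q', Gen η (q' :: Y) → ∃ c : ℂ, ∀ t, Good η t X →
            W₁ (t :: X) (q' :: Y) - W₂ (t :: X) (q' :: Y) = c * (node η X).eval t := by
          intro q' hq'
          obtain ⟨c, _, hv⟩ := diff_eq hη h₁ h₂ hX.tail hq'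
            (fun X' Y' h => ih _ (by simp at h ⊢; omega) X' Y' rfl) (by simp; omega)
          exact ⟨c, hv⟩
        have B : ∀ p', Gen η (p' :: X) → ∃ c : ℂ, ∀ t, Good η t Y →
            W₁ (p' :: X) (t :: Y) - W₂ (p' :: X) (t :: Y) = c * (node η Y).eval t := by
          intro p' hp'
          obtain ⟨c, _, hv⟩ := diff_eq hη h₁ h₂ hY.tail hp'
            (fun X' Y' h => ih _ (by simp at h ⊢; omega) X' Y' rfl) (by simp; omega)
          refine ⟨c, fun t ht => ?_⟩
          rw [h₁.roles, h₂.roles]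
          exact hv t ht
        obtain ⟨c, hc⟩ := A q hY
        have hnq := node_eval_ne hη hY
        have hnp := node_eval_ne hη hX
        set κ := c / (node η Y).eval q with hκ
        have main : ∀ p' q', Gen η (p' :: X) → Gen η (q' :: Y) →
            W₁ (p' :: X) (q' :: Y) - W₂ (p' :: X) (q' :: Y) =
              κ * ((node η X).eval p' * (node η Y).eval q') := by
          intro p' q' hp' hq'
          obtain ⟨c', hc'⟩ := B p' hp'
          have e1 := hc p' (hp'.good hη)
          have e2 := hc' q (hY.good hη)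
          have e3 := hc' q' (hq'.good hη)
          rw [e3]
          rw [e1] at e2
          have : c' = κ * (node η X).eval p' := by
            rw [hκ]; field_simp; rw [mul_comm c', mul_comm] at *; linear_combination -e2
          rw [this]; ring
        have hj1 := h₁.joint 1 1 X Y one_ne_zero one_ne_zero hX.tail hY.tail
        have hj2 := h₂.joint 1 1 X Y one_ne_zero one_ne_zero hX.tail hY.tail
        have hW : W₁ X Y = W₂ X Y := ih _ (by omega) X Y rfl hX.tail hY.tail
        have hj := hj1.sub hj2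
        rw [hW, sub_self] at hj
        have hl : Tendsto (fun T : ℝ => κ * (((node η X).eval (T : ℂ) / (T : ℂ) ^ (rts η X).length) *
            ((node η Y).eval (T : ℂ) / (T : ℂ) ^ (rts η Y).length))) atTop (𝓝 (κ * (1 * 1))) :=
          tendsto_const_nhds.mul ((tendsto_node _).mul (tendsto_node _))
        have hκ0 : κ = 0 := by
          have hj' : Tendsto (fun T : ℝ => κ * (((node η X).eval (T : ℂ) /
              (T : ℂ) ^ (rts η X).length) *
              ((node η Y).eval (T : ℂ) / (T : ℂ) ^ (rts η Y).length))) atTop (𝓝 0) := by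
            refine hj.congr' ?_
            filter_upwards [eventually_gen hη hX.tail, eventually_gen hη hY.tail,
              eventually_gt_atTop (0 : ℝ)] with T g1 g2 h0
            have hT' : (T : ℂ) ≠ 0 := by exact_mod_cast h0.ne'
            have := main T T g1 g2
            rw [one_mul, ← sub_div, this, length_rts, length_rts]
            rw [show 4 * (X.length + Y.length) + 2 = (4 * X.length + 1) + (4 * Y.length + 1) by ring,
              pow_add]
            field_simp
          have := tendsto_nhds_unique hl hj'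
          simpa using this
        have := main p q hX hY
        rw [hκ0, zero_mul, sub_eq_zero] at this
        exact this
  · rw [h₁.roles, h₂.roles]
    exact key Y X (by omega) hgt hY hX

end NUGas
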