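import Pool.Agent.NUF.Gas.Poly3
import Pool.Agent.NUF.Gas.Uniq2

/-!
# The closed formula

Every family with the properties `Data η n' W` is the charge sum `N η σ om`, where
`n' = om + om⁻¹` and `σ ^ 2 = 2 - η - η⁻¹`.
-/

namespace NUGas

variable {η σ om : ℂ}

/-- **the closed formula** -/
theorem formula (hη : η ^ 4 = -1) (hσ : σ ^ 2 = 2 - η + η ^ 3) (hom : om ≠ 0)
    {W : List ℂ → List ℂ → ℂ} (hW : Data η (om + om⁻¹) W) {X Y : List ℂ} (hX : Gen η X)
    (hY : Gen η Y) : W X Y = N η σ om X Y :=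
  uniq hη hW (N_data hη hσ hom) X Y hX hY

end NUGas
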