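import Pool.Agent.NUF.Gas.Base

/-!
Crossing of the charge sum: two lines `η³ q, q` of one group drop out.
-/

open Polynomial Filter Topology

namespace NUGas

variable {η σ om : ℂ}

lemma lin_ne_of_sep {q y : ℂ} (h : Sep η q y) (k : ℕ) : lin η k q y ≠ 0 := by
  unfold lin; exact sub_ne_zero.2 (h k)

lemma eta_sub_one {k : ℕ} (hη : η ^ 4 = -1) (hk : k = 1 ∨ k = 2 ∨ k = 3) : η ^ k ≠ 1 := by
  intro h
  have h2 : (η ^ k) ^ 4 = 1 := by rw [h]; norm_num
  rcases hk with rfl | rfl | rfl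
  · rw [pow_one, hη] at h2; norm_num at h2
  · have : η ^ 4 = 1 := by
      calc η ^ 4 = (η ^ 2) ^ 2 := by ring
        _ = 1 := by rw [h]; norm_num
    rw [hη] at this; norm_num at this
  · have : (η ^ 3) ^ 4 = (η ^ 4) ^ 3 := by ring
    rw [this, hη] at h2; norm_num at h2

lemma lin_mul3 (hη : η ^ 4 = -1) (q y : ℂ) :
    lin η 0 (η ^ 3 * q) y = lin η 3 q y ∧ lin η 2 (η ^ 3 * q) y = lin η 5 q y ∧
    lin η 3 (η ^ 3 * q) y = lin η 6 q y ∧ lin η 5 (η ^ 3 * q) y = lin η 0 q y ∧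
    lin η 6 (η ^ 3 * q) y = lin η 1 q y ∧ lin η 7 (η ^ 3 * q) y = lin η 2 q y := by
  have h8 := eta8 hη
  refine ⟨?_, ?_, ?_, ?_, ?_, ?_⟩ <;> unfold lin
  · ring
  · ring
  · ring
  · linear_combination q * h8
  · linear_combination (η * q) * h8
  · linear_combination (η ^ 2 * q) * h8

lemma F_cross_nodes (hη : η ^ 4 = -1) {q : ℂ} (a b : SignType)
    (hab : ¬ (a = .neg ∧ b = .pos)) : F η a b (η ^ 3 * q) q = 0 := by
  obtain ⟨h0, h2, h3, h5, h6, h7⟩ := lin_mul3 hη q q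
  have hz : lin η 5 (η ^ 3 * q) q = 0 := by rw [h5]; unfold lin; ring
  rcases a with _ | _ | _ <;> rcases b with _ | _ | _ <;>
    first
      | (simp only [F, hz, mul_zero, zero_mul, zero_div]; done)
      | (exfalso; exact hab ⟨rfl, rfl⟩)

lemma F_cross_one (hη : η ^ 4 = -1) {q : ℂ} (hq : q ≠ 0) :
    F η .neg .pos (η ^ 3 * q) q = 1 := by
  obtain ⟨h0, h2, h3, h5, h6, h7⟩ := lin_mul3 hη q q
  have e3 : lin η 3 q q ≠ 0 := by
    unfold lin
    rw [show η ^ 3 * q - q = (η ^ 3 - 1) * q by ring]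
    exact mul_ne_zero (sub_ne_zero.2 (eta_sub_one hη (by simp))) hq
  have e2 : lin η 2 q q ≠ 0 := by
    unfold lin
    rw [show η ^ 2 * q - q = (η ^ 2 - 1) * q by ring]
    exact mul_ne_zero (sub_ne_zero.2 (eta_sub_one hη (by simp))) hq
  change η ^ 5 * (lin η 2 (η ^ 3 * q) q * lin η 3 (η ^ 3 * q) q) /
    (lin η 0 (η ^ 3 * q) q * lin η 7 (η ^ 3 * q) q) = 1
  rw [h0, h2, h3, h7, div_eq_one_iff_eq (mul_ne_zero e3 e2)]
  unfold lin
  have h8 := eta8 hη
  linear_combination (q ^ 2 * (η ^ 12 - η ^ 8 - η ^ 7 - η ^ 6 + η ^ 4 + η ^ 3 + η ^ 2 - 1)) * hη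

/-- the factor of one line -/
noncomputable def KK (η q y : ℂ) : ℂ := ((y + η * q) * (y + η ^ 2 * q)) ^ 2

lemma KK_eq (hη : η ^ 4 = -1) (q y : ℂ) : KK η q y = (lin η 5 q y * lin η 6 q y) ^ 2 := by
  have e5 : lin η 5 q y = -(y + η * q) := by unfold lin; linear_combination (η * q) * hη
  have e6 : lin η 6 q y = -(y + η ^ 2 * q) := by unfold lin; linear_combination (η ^ 2 * q) * hη
  rw [e5, e6]; unfold KK; ring

lemma zpow_neg_charge (hη : η ^ 4 = -1) {j k : ℕ} (h : j + k = 8) :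
    (η ^ j) ^ (-1 : ℤ) = η ^ k := by
  rw [zpow_neg_one]
  exact inv_eq_of_mul_eq_one_right (by rw [← pow_add, h, eta8 hη])

lemma F_cross_line (hη : η ^ 4 = -1) {q y : ℂ} (h : Sep η q y) (c : SignType) :
    F η .neg c (η ^ 3 * q) y * F η .pos c q y = (η ^ 5) ^ ((c : SignType) : ℤ) * KK η q y := by
  obtain ⟨h0, h2, h3, h5, h6, h7⟩ := lin_mul3 hη q y
  have n0 := lin_ne_of_sep h 0
  have n1 := lin_ne_of_sep h 1
  have n2 := lin_ne_of_sep h 2
  have n3 := lin_ne_of_sep h 3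
  rw [KK_eq hη]
  have h8 := eta8 hη
  rcases c with _ | _ | _
  · change η ^ 7 * (lin η 2 (η ^ 3 * q) y * lin η 3 (η ^ 3 * q) y * lin η 5 (η ^ 3 * q) y) /
      lin η 0 (η ^ 3 * q) y * (η * (lin η 3 q y * lin η 5 q y * lin η 6 q y) / lin η 0 q y) =
      (η ^ 5) ^ (0 : ℤ) * _
    rw [h0, h2, h3, h5, zpow_zero, one_mul]
    field_simp
    linear_combination ((lin η 5 q y * lin η 6 q y) ^ 2) * h8
  · change lin η 2 (η ^ 3 * q) y * lin η 3 (η ^ 3 * q) y * lin η 5 (η ^ 3 * q) y *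
      lin η 6 (η ^ 3 * q) y * (η ^ 3 * (lin η 5 q y * lin η 6 q y) / (lin η 0 q y * lin η 1 q y)) =
      (η ^ 5) ^ (-1 : ℤ) * _
    rw [h2, h3, h5, h6, zpow_neg_charge hη (j := 5) (k := 3) rfl]
    field_simp
  · change η ^ 5 * (lin η 2 (η ^ 3 * q) y * lin η 3 (η ^ 3 * q) y) /
      (lin η 0 (η ^ 3 * q) y * lin η 7 (η ^ 3 * q) y) *
      (lin η 2 q y * lin η 3 q y * lin η 5 q y * lin η 6 q y) = (η ^ 5) ^ (1 : ℤ) * _
    rw [h0, h2, h3, h7, zpow_one]
    field_simp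

lemma G_cross_line (hη : η ^ 4 = -1) (q y : ℂ) (c : SignType) :
    G η .neg c (η ^ 3 * q) y * G η .pos c q y = (η ^ 3) ^ ((c : SignType) : ℤ) * KK η q y := by
  obtain ⟨h0, h2, h3, h5, h6, h7⟩ := lin_mul3 hη q y
  rw [KK_eq hη]
  have h8 := eta8 hη
  rcases c with _ | _ | _
  · change η * lin η 3 (η ^ 3 * q) y ^ 2 * (η ^ 7 * lin η 5 q y ^ 2) = (η ^ 3) ^ (0 : ℤ) * _
    rw [h3, zpow_zero, one_mul]
    linear_combination ((lin η 5 q y * lin η 6 q y) ^ 2) * h8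
  · change (1 : ℂ) * (η ^ 5 * (lin η 5 q y * lin η 6 q y) ^ 2) = (η ^ 3) ^ (-1 : ℤ) * _
    rw [zpow_neg_charge hη (j := 3) (k := 5) rfl, one_mul]
  · change η ^ 3 * (lin η 2 (η ^ 3 * q) y * lin η 3 (η ^ 3 * q) y) ^ 2 * (1 : ℂ) =
      (η ^ 3) ^ (1 : ℤ) * _
    rw [h2, h3, zpow_one, mul_one]

lemma one_cross (hη : η ^ 4 = -1) {q : ℂ} {X Y : List ℂ} (hX : ∀ y ∈ X, Sep η q y)
    {e f : List (ℂ × SignType)} (he : e.map Prod.fst = X) (hf : f.map Prod.fst = Y) :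
    one η σ (η ^ 3 * q) .neg e f * one η σ q .pos e f =
      (σ ^ 2 * η ^ 3 * q ^ 2 * ((X.map (KK η q)).prod * (Y.map (KK η q)).prod)) *
        ((η ^ 5) ^ tot e * (η ^ 3) ^ tot f) := by
  have h0 := eta_ne hη
  have hF : (e.map (fun d => F η .neg d.2 (η ^ 3 * q) d.1)).prod *
      (e.map (fun d => F η .pos d.2 q d.1)).prod = (η ^ 5) ^ tot e * (X.map (KK η q)).prod := by
    rw [← prod_zpow_tot (pow_ne_zero _ h0) e, ← he, List.map_map, ← List.prod_map_mul,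
      ← List.prod_map_mul]
    congr 1
    refine List.map_congr_left fun d hd => ?_
    exact F_cross_line hη (hX _ (by rw [← he]; exact List.mem_map_of_mem hd)) d.2
  have hG : (f.map (fun d => G η .neg d.2 (η ^ 3 * q) d.1)).prod *
      (f.map (fun d => G η .pos d.2 q d.1)).prod = (η ^ 3) ^ tot f * (Y.map (KK η q)).prod := by
    rw [← prod_zpow_tot (pow_ne_zero _ h0) f, ← hf, List.map_map, ← List.prod_map_mul,
      ← List.prod_map_mul]
    congr 1
    exact List.map_congr_left fun d _ => G_cross_line hη q d.1 d.2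
  unfold one
  calc _ = (wt σ .neg (η ^ 3 * q) * wt σ .pos q) *
        ((e.map (fun d => F η .neg d.2 (η ^ 3 * q) d.1)).prod *
          (e.map (fun d => F η .pos d.2 q d.1)).prod) *
        ((f.map (fun d => G η .neg d.2 (η ^ 3 * q) d.1)).prod *
          (f.map (fun d => G η .pos d.2 q d.1)).prod) := by ring
    _ = _ := by
      rw [hF, hG]
      change (σ * (η ^ 3 * q) * (σ * q)) * _ * _ = _
      ring

theorem N_cross (hη : η ^ 4 = -1) (hσ : σ ^ 2 = 2 - η + η ^ 3) (q : ℂ) (X Y : List ℂ)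
    (hX : Gen η (q :: X)) :
    N η σ om (η ^ 3 * q :: q :: X) Y = (2 - η + η ^ 3) * η ^ 3 * q ^ 2 *
      ((X.map (fun x => ((x + η * q) * (x + η ^ 2 * q)) ^ 2)).prod *
       (Y.map (fun x => ((x + η * q) * (x + η ^ 2 * q)) ^ 2)).prod) * N η σ om X Y := by
  have hq : q ≠ 0 := hX.1 q List.mem_cons_self
  have hsep : ∀ y ∈ X, Sep η q y := (List.pairwise_cons.1 hX.2).1
  have h0 := eta_ne hη
  have h8 := eta8 hη
  rw [N_cons2, sum3, sum3, sum3, sum3]
  rw [F_cross_nodes hη (q := q) .zero .zero (by decide), F_cross_nodes hη (q := q) .zero .neg (by decide),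
    F_cross_nodes hη (q := q) .zero .pos (by decide), F_cross_nodes hη (q := q) .neg .zero (by decide),
    F_cross_nodes hη (q := q) .neg .neg (by decide), F_cross_one hη hq,
    F_cross_nodes hη (q := q) .pos .zero (by decide), F_cross_nodes hη (q := q) .pos .neg (by decide),
    F_cross_nodes hη (q := q) .pos .pos (by decide)]
  simp only [zero_mul, zero_add, add_zero, one_mul]
  rw [N_eq, ← hσ]
  change _ = (σ ^ 2 * η ^ 3 * q ^ 2 * ((X.map (KK η q)).prod * (Y.map (KK η q)).prod)) * _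
  rw [← sch_mul_left]
  refine sch_congr fun e he => ?_
  rw [← sch_mul_left]
  refine sch_congr fun f hf => ?_
  rw [one_cross hη hsep he hf]
  have hk : ((SignType.neg : SignType) : ℤ) + ((SignType.pos : SignType) : ℤ) = 0 := by decide
  rw [hk]
  unfold rest
  split_ifs with h
  · have : (η ^ 5) ^ tot e * (η ^ 3) ^ tot f = 1 := by
      rw [← h, zero_add, ← mul_zpow, ← pow_add, h8, one_zpow]
    rw [mul_assoc, this, one_mul]
  · simp

end NUGas
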