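import Pool.Agent.NUF.Gas.Base

/-!
Joint limit of the charge sum: two lines, one on each side of the face, go to infinity together.
-/

open Polynomial Filter Topology

namespace NUGas

variable {η σ om : ℂ}

/-- leading phase of `F` -/
noncomputable def phF (η : ℂ) : SignType → SignType → ℂ
  | .pos, .pos => 1
  | .neg, .neg => 1
  | .zero, .zero => 1
  | .zero, .pos => η
  | .neg, .zero => η
  | .pos, .zero => η ^ 7
  | .zero, .neg => η ^ 7
  | .neg, .pos => η ^ 3
  | .pos, .neg => η ^ 5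

/-- leading phase of `G` -/
noncomputable def phG (η : ℂ) : SignType → SignType → ℂ
  | .pos, .pos => 1
  | .neg, .neg => 1
  | .zero, .zero => 1
  | .zero, .pos => η ^ 7
  | .neg, .zero => η ^ 7
  | .pos, .zero => η
  | .zero, .neg => η
  | .neg, .pos => η ^ 5
  | .pos, .neg => η ^ 3

lemma phF_mul_phG (hη : η ^ 4 = -1) (a c : SignType) : phF η a c * phG η a c = 1 := by
  have h8 := eta8 hη
  rcases a with _ | _ | _ <;> rcases c with _ | _ | _ <;> simp only [phF, phG] <;>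
    first
    | linear_combination h8
    | norm_num

lemma ev_ne : ∀ᶠ T : ℝ in atTop, (T : ℂ) ≠ 0 := by
  filter_upwards [eventually_gt_atTop 0] with T hT
  exact_mod_cast hT.ne'

lemma inv_lim : Tendsto (fun T : ℝ => ((T : ℂ))⁻¹) atTop (𝓝 0) := by
  have h := (Complex.continuous_ofReal.tendsto 0).comp tendsto_inv_atTop_zero
  simpa [Function.comp_def] using h

lemma zpow_neg_lim {k : ℤ} (hk : 0 < k) : Tendsto (fun T : ℝ => (T : ℂ) ^ (-k)) atTop (𝓝 0) := by
  obtain ⟨n, rfl⟩ := Int.eq_ofNat_of_zero_le hk.le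
  have hn : n ≠ 0 := by rintro rfl; simp at hk
  have h := inv_lim.pow n
  rw [zero_pow hn] at h
  refine h.congr fun T => ?_
  rw [zpow_neg, inv_pow]; simp

lemma lin_lim (k : ℕ) (a x : ℂ) :
    Tendsto (fun T : ℝ => lin η k (a * T) x / (T : ℂ)) atTop (𝓝 (η ^ k * a)) := by
  have h : Tendsto (fun T : ℝ => η ^ k * a - x * ((T : ℂ))⁻¹) atTop (𝓝 (η ^ k * a - x * 0)) :=
    tendsto_const_nhds.sub (tendsto_const_nhds.mul inv_lim)
  rw [mul_zero, sub_zero] at h
  refine h.congr' ?_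
  filter_upwards [ev_ne] with T hT
  unfold lin
  field_simp

lemma eta_pow_red (hη : η ^ 4 = -1) (k : ℕ) : η ^ (k + 8) = η ^ k := by
  rw [pow_add, eta8 hη, mul_one]

lemma F_lim (hη : η ^ 4 = -1) (α c : SignType) {a : ℂ} (ha : a ≠ 0) (x : ℂ) :
    Tendsto (fun T : ℝ => F η α c (a * T) x / (T : ℂ) ^ (2 + 2 * ((α : ℤ) * (c : ℤ)))) atTop
      (𝓝 (phF η α c * a ^ (2 + 2 * ((α : ℤ) * (c : ℤ))))) := by
  have h0 := eta_ne hη
  have h8 := eta8 hη
  have l0 := lin_lim (η := η) 0 a x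
  have l1 := lin_lim (η := η) 1 a x
  have l2 := lin_lim (η := η) 2 a x
  have l3 := lin_lim (η := η) 3 a x
  have l5 := lin_lim (η := η) 5 a x
  have l6 := lin_lim (η := η) 6 a x
  have l7 := lin_lim (η := η) 7 a x
  have n0 : η ^ 0 * a ≠ 0 := mul_ne_zero (pow_ne_zero _ h0) ha
  have n1 : η ^ 1 * a ≠ 0 := mul_ne_zero (pow_ne_zero _ h0) ha
  have n7 : η ^ 7 * a ≠ 0 := mul_ne_zero (pow_ne_zero _ h0) ha
  have m1 : Tendsto (fun T : ℝ => lin η 2 (a * T) x * lin η 3 (a * T) x * lin η 5 (a * T) x *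
      lin η 6 (a * T) x / (T : ℂ) ^ (4 : ℤ)) atTop (𝓝 (a ^ (4 : ℤ))) := by
    have h := ((l2.mul l3).mul l5).mul l6
    have e : η ^ 2 * a * (η ^ 3 * a) * (η ^ 5 * a) * (η ^ 6 * a) = a ^ (4 : ℤ) := by
      rw [show (a ^ (4 : ℤ) : ℂ) = a ^ 4 by norm_cast]
      linear_combination (a ^ 4) * (η ^ 8 + 1) * h8
    rw [e] at h
    refine h.congr' ?_
    filter_upwards [ev_ne] with T hT
    try simp only [Pi.div_apply]
    rw [show ((T : ℂ) ^ (4 : ℤ)) = (T : ℂ) ^ 4 by norm_cast]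
    field_simp
  have m2 : Tendsto (fun T : ℝ => lin η 2 (a * T) x * lin η 3 (a * T) x * lin η 5 (a * T) x *
      lin η 6 (a * T) x / (lin η 1 (a * T) x * lin η 7 (a * T) x) / (T : ℂ) ^ (2 : ℤ))
      atTop (𝓝 (a ^ (2 : ℤ))) := by
    have h := (((l2.mul l3).mul l5).mul l6).div (l1.mul l7) (mul_ne_zero n1 n7)
    have e : η ^ 2 * a * (η ^ 3 * a) * (η ^ 5 * a) * (η ^ 6 * a) / (η ^ 1 * a * (η ^ 7 * a)) =
        a ^ (2 : ℤ) := by
      rw [show (a ^ (2 : ℤ) : ℂ) = a ^ 2 by norm_cast]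
      rw [div_eq_iff (mul_ne_zero n1 n7)]
      linear_combination (a ^ 4) * (η ^ 8) * h8
    rw [e] at h
    refine h.congr' ?_
    filter_upwards [ev_ne] with T hT
    try simp only [Pi.div_apply]
    rw [show ((T : ℂ) ^ (2 : ℤ)) = (T : ℂ) ^ 2 by norm_cast]
    by_cases d : lin η 1 (a * T) x * lin η 7 (a * T) x = 0
    · rcases mul_eq_zero.1 d with d | d <;> simp [d]
    · rcases mul_ne_zero_iff.1 d with ⟨d1, d7⟩
      field_simp
  have m3 : Tendsto (fun T : ℝ => η ^ 7 * (lin η 2 (a * T) x * lin η 3 (a * T) x *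
      lin η 5 (a * T) x) / lin η 0 (a * T) x / (T : ℂ) ^ (2 : ℤ))
      atTop (𝓝 (η * a ^ (2 : ℤ))) := by
    have h := (((l2.mul l3).mul l5).const_mul (η ^ 7)).div l0 n0
    have e : η ^ 7 * (η ^ 2 * a * (η ^ 3 * a) * (η ^ 5 * a)) / (η ^ 0 * a) =
        η * a ^ (2 : ℤ) := by
      rw [show (a ^ (2 : ℤ) : ℂ) = a ^ 2 by norm_cast]
      rw [div_eq_iff n0]
      linear_combination (a ^ 3) * (η ^ 9 + η) * h8
    rw [e] at h
    refine h.congr' ?_
    filter_upwards [ev_ne] with T hT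
    try simp only [Pi.div_apply]
    rw [show ((T : ℂ) ^ (2 : ℤ)) = (T : ℂ) ^ 2 by norm_cast]
    by_cases d : lin η 0 (a * T) x = 0
    · simp [d]
    · field_simp
  have m4 : Tendsto (fun T : ℝ => η * (lin η 3 (a * T) x * lin η 5 (a * T) x *
      lin η 6 (a * T) x) / lin η 0 (a * T) x / (T : ℂ) ^ (2 : ℤ))
      atTop (𝓝 (η ^ 7 * a ^ (2 : ℤ))) := by
    have h := (((l3.mul l5).mul l6).const_mul η).div l0 n0
    have e : η * (η ^ 3 * a * (η ^ 5 * a) * (η ^ 6 * a)) / (η ^ 0 * a) =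
        η ^ 7 * a ^ (2 : ℤ) := by
      rw [show (a ^ (2 : ℤ) : ℂ) = a ^ 2 by norm_cast]
      rw [div_eq_iff n0]
      linear_combination (a ^ 3) * (η ^ 7) * h8
    rw [e] at h
    refine h.congr' ?_
    filter_upwards [ev_ne] with T hT
    try simp only [Pi.div_apply]
    rw [show ((T : ℂ) ^ (2 : ℤ)) = (T : ℂ) ^ 2 by norm_cast]
    by_cases d : lin η 0 (a * T) x = 0
    · simp [d]
    · field_simp
  have m5 : Tendsto (fun T : ℝ => η ^ 5 * (lin η 2 (a * T) x * lin η 3 (a * T) x) /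
      (lin η 0 (a * T) x * lin η 7 (a * T) x) / (T : ℂ) ^ (0 : ℤ))
      atTop (𝓝 (η ^ 3 * a ^ (0 : ℤ))) := by
    have h := ((l2.mul l3).const_mul (η ^ 5)).div (l0.mul l7) (mul_ne_zero n0 n7)
    have e : η ^ 5 * (η ^ 2 * a * (η ^ 3 * a)) / (η ^ 0 * a * (η ^ 7 * a)) =
        η ^ 3 * a ^ (0 : ℤ) := by
      rw [zpow_zero, mul_one, div_eq_iff (mul_ne_zero n0 n7)]
      ring
    rw [e] at h
    refine h.congr' ?_
    filter_upwards [ev_ne] with T hT
    try simp only [Pi.div_apply]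
    rw [zpow_zero, div_one]
    by_cases d : lin η 0 (a * T) x * lin η 7 (a * T) x = 0
    · rcases mul_eq_zero.1 d with d | d <;> simp [d]
    · rcases mul_ne_zero_iff.1 d with ⟨d1, d7⟩
      field_simp
  have m6 : Tendsto (fun T : ℝ => η ^ 3 * (lin η 5 (a * T) x * lin η 6 (a * T) x) /
      (lin η 0 (a * T) x * lin η 1 (a * T) x) / (T : ℂ) ^ (0 : ℤ))
      atTop (𝓝 (η ^ 5 * a ^ (0 : ℤ))) := by
    have h := ((l5.mul l6).const_mul (η ^ 3)).div (l0.mul l1) (mul_ne_zero n0 n1)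
    have e : η ^ 3 * (η ^ 5 * a * (η ^ 6 * a)) / (η ^ 0 * a * (η ^ 1 * a)) =
        η ^ 5 * a ^ (0 : ℤ) := by
      rw [zpow_zero, mul_one, div_eq_iff (mul_ne_zero n0 n1)]
      linear_combination (a ^ 2) * (η ^ 6) * h8
    rw [e] at h
    refine h.congr' ?_
    filter_upwards [ev_ne] with T hT
    try simp only [Pi.div_apply]
    rw [zpow_zero, div_one]
    by_cases d : lin η 0 (a * T) x * lin η 1 (a * T) x = 0
    · rcases mul_eq_zero.1 d with d | d <;> simp [d]
    · rcases mul_ne_zero_iff.1 d with ⟨d1, d7⟩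
      field_simp
  rcases α with _ | _ | _ <;> rcases c with _ | _ | _
  · simpa [F, phF] using m2
  · simpa [F, phF] using m4
  · simpa [F, phF] using m3
  · simpa [F, phF] using m3
  · simpa [F, phF] using m1
  · simpa [F, phF] using m5
  · simpa [F, phF] using m4
  · simpa [F, phF] using m6
  · simpa [F, phF] using m1

lemma G_lim (hη : η ^ 4 = -1) (α c : SignType) (a x : ℂ) :
    Tendsto (fun T : ℝ => G η α c (a * T) x / (T : ℂ) ^ (2 - 2 * ((α : ℤ) * (c : ℤ)))) atTop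
      (𝓝 (phG η α c * a ^ (2 - 2 * ((α : ℤ) * (c : ℤ))))) := by
  have h8 := eta8 hη
  have l2 := lin_lim (η := η) 2 a x
  have l3 := lin_lim (η := η) 3 a x
  have l4 := lin_lim (η := η) 4 a x
  have l5 := lin_lim (η := η) 5 a x
  have l6 := lin_lim (η := η) 6 a x
  have m1 : Tendsto (fun T : ℝ => (1 : ℂ) / (T : ℂ) ^ (0 : ℤ)) atTop (𝓝 (1 * a ^ (0 : ℤ))) := by
    simp
  have m2 : Tendsto (fun T : ℝ => lin η 4 (a * T) x ^ 2 / (T : ℂ) ^ (2 : ℤ))
      atTop (𝓝 (a ^ (2 : ℤ))) := by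
    have h := l4.pow 2
    have e : (η ^ 4 * a) ^ 2 = a ^ (2 : ℤ) := by
      rw [show (a ^ (2 : ℤ) : ℂ) = a ^ 2 by norm_cast]
      linear_combination (a ^ 2) * h8
    rw [e] at h
    refine h.congr' ?_
    filter_upwards [ev_ne] with T hT
    try simp only [Pi.div_apply]
    rw [show ((T : ℂ) ^ (2 : ℤ)) = (T : ℂ) ^ 2 by norm_cast, div_pow]
  have m3 : Tendsto (fun T : ℝ => η * lin η 3 (a * T) x ^ 2 / (T : ℂ) ^ (2 : ℤ))
      atTop (𝓝 (η ^ 7 * a ^ (2 : ℤ))) := by
    have h := (l3.pow 2).const_mul η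
    have e : η * (η ^ 3 * a) ^ 2 = η ^ 7 * a ^ (2 : ℤ) := by
      rw [show (a ^ (2 : ℤ) : ℂ) = a ^ 2 by norm_cast]
      ring
    rw [e] at h
    refine h.congr' ?_
    filter_upwards [ev_ne] with T hT
    try simp only [Pi.div_apply]
    rw [show ((T : ℂ) ^ (2 : ℤ)) = (T : ℂ) ^ 2 by norm_cast]
    field_simp
  have m4 : Tendsto (fun T : ℝ => η ^ 7 * lin η 5 (a * T) x ^ 2 / (T : ℂ) ^ (2 : ℤ))
      atTop (𝓝 (η * a ^ (2 : ℤ))) := by
    have h := (l5.pow 2).const_mul (η ^ 7)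
    have e : η ^ 7 * (η ^ 5 * a) ^ 2 = η * a ^ (2 : ℤ) := by
      rw [show (a ^ (2 : ℤ) : ℂ) = a ^ 2 by norm_cast]
      linear_combination (a ^ 2) * (η ^ 9 + η) * h8
    rw [e] at h
    refine h.congr' ?_
    filter_upwards [ev_ne] with T hT
    try simp only [Pi.div_apply]
    rw [show ((T : ℂ) ^ (2 : ℤ)) = (T : ℂ) ^ 2 by norm_cast]
    field_simp
  have m5 : Tendsto (fun T : ℝ => η ^ 3 * (lin η 2 (a * T) x * lin η 3 (a * T) x) ^ 2 /
      (T : ℂ) ^ (4 : ℤ)) atTop (𝓝 (η ^ 5 * a ^ (4 : ℤ))) := by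
    have h := ((l2.mul l3).pow 2).const_mul (η ^ 3)
    have e : η ^ 3 * (η ^ 2 * a * (η ^ 3 * a)) ^ 2 = η ^ 5 * a ^ (4 : ℤ) := by
      rw [show (a ^ (4 : ℤ) : ℂ) = a ^ 4 by norm_cast]
      linear_combination (a ^ 4) * (η ^ 5) * h8
    rw [e] at h
    refine h.congr' ?_
    filter_upwards [ev_ne] with T hT
    try simp only [Pi.div_apply]
    rw [show ((T : ℂ) ^ (4 : ℤ)) = (T : ℂ) ^ 4 by norm_cast]
    field_simp
  have m6 : Tendsto (fun T : ℝ => η ^ 5 * (lin η 5 (a * T) x * lin η 6 (a * T) x) ^ 2 /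
      (T : ℂ) ^ (4 : ℤ)) atTop (𝓝 (η ^ 3 * a ^ (4 : ℤ))) := by
    have h := ((l5.mul l6).pow 2).const_mul (η ^ 5)
    have e : η ^ 5 * (η ^ 5 * a * (η ^ 6 * a)) ^ 2 = η ^ 3 * a ^ (4 : ℤ) := by
      rw [show (a ^ (4 : ℤ) : ℂ) = a ^ 4 by norm_cast]
      linear_combination (a ^ 4) * (η ^ 19 + η ^ 11 + η ^ 3) * h8
    rw [e] at h
    refine h.congr' ?_
    filter_upwards [ev_ne] with T hT
    try simp only [Pi.div_apply]
    rw [show ((T : ℂ) ^ (4 : ℤ)) = (T : ℂ) ^ 4 by norm_cast]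
    field_simp
  rcases α with _ | _ | _ <;> rcases c with _ | _ | _
  · simpa [G, phG] using m2
  · simpa [G, phG] using m4
  · simpa [G, phG] using m3
  · simpa [G, phG] using m3
  · simp [G, phG]
  · simpa [G, phG] using m5
  · simpa [G, phG] using m4
  · simpa [G, phG] using m6
  · simp [G, phG]

/-- limit of a product of two normalised functions, exponents added -/
lemma lim_mul {f g : ℝ → ℂ} {m n : ℤ} {u v a : ℂ} (ha : a ≠ 0)
    (hf : Tendsto (fun T => f T / (T : ℂ) ^ m) atTop (𝓝 (u * a ^ m)))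
    (hg : Tendsto (fun T => g T / (T : ℂ) ^ n) atTop (𝓝 (v * a ^ n))) :
    Tendsto (fun T => f T * g T / (T : ℂ) ^ (m + n)) atTop (𝓝 (u * v * a ^ (m + n))) := by
  have h := hf.mul hg
  rw [show u * a ^ m * (v * a ^ n) = u * v * a ^ (m + n) by rw [zpow_add₀ ha]; ring] at h
  refine h.congr' ?_
  filter_upwards [ev_ne] with T hT
  rw [zpow_add₀ hT]
  field_simp

lemma prodF_lim (hη : η ^ 4 = -1) (α : SignType) {a : ℂ} (ha : a ≠ 0)
    (e : List (ℂ × SignType)) :
    Tendsto (fun T : ℝ => (e.map (fun d => F η α d.2 (a * T) d.1)).prod /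
        (T : ℂ) ^ (2 * (e.length : ℤ) + 2 * ((α : ℤ) * tot e))) atTop
      (𝓝 ((e.map (fun d => phF η α d.2)).prod *
        a ^ (2 * (e.length : ℤ) + 2 * ((α : ℤ) * tot e)))) := by
  induction e with
  | nil => simp [tot]
  | cons c e ih =>
    have h := lim_mul ha (F_lim hη α c.2 ha c.1) ih
    have hk : 2 + 2 * ((α : ℤ) * (c.2 : ℤ)) + (2 * (e.length : ℤ) + 2 * ((α : ℤ) * tot e)) =
        2 * ((c :: e).length : ℤ) + 2 * ((α : ℤ) * tot (c :: e)) := by
      rw [tot_cons, List.length_cons]; push_cast; ring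
    rw [hk] at h
    simpa only [List.map_cons, List.prod_cons] using h

lemma prodG_lim (hη : η ^ 4 = -1) (α : SignType) {a : ℂ} (ha : a ≠ 0)
    (f : List (ℂ × SignType)) :
    Tendsto (fun T : ℝ => (f.map (fun d => G η α d.2 (a * T) d.1)).prod /
        (T : ℂ) ^ (2 * (f.length : ℤ) - 2 * ((α : ℤ) * tot f))) atTop
      (𝓝 ((f.map (fun d => phG η α d.2)).prod *
        a ^ (2 * (f.length : ℤ) - 2 * ((α : ℤ) * tot f)))) := by
  induction f with
  | nil => simp [tot]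
  | cons c f ih =>
    have h := lim_mul ha (G_lim hη α c.2 a c.1) ih
    have hk : 2 - 2 * ((α : ℤ) * (c.2 : ℤ)) + (2 * (f.length : ℤ) - 2 * ((α : ℤ) * tot f)) =
        2 * ((c :: f).length : ℤ) - 2 * ((α : ℤ) * tot (c :: f)) := by
      rw [tot_cons, List.length_cons]; push_cast; ring
    rw [hk] at h
    simpa only [List.map_cons, List.prod_cons] using h

/-- weight constant -/
noncomputable def wc (σ : ℂ) : SignType → ℂ
  | .zero => 1
  | .pos => σ
  | .neg => σ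

lemma wt_lim (α : SignType) {a : ℂ} (ha : a ≠ 0) :
    Tendsto (fun T : ℝ => wt σ α (a * T) / (T : ℂ) ^ ((α : ℤ) * (α : ℤ))) atTop
      (𝓝 (wc σ α * a ^ ((α : ℤ) * (α : ℤ)))) := by
  have m1 : Tendsto (fun T : ℝ => σ * (a * T) / (T : ℂ) ^ (1 : ℤ)) atTop
      (𝓝 (σ * a ^ (1 : ℤ))) := by
    rw [zpow_one]
    refine (tendsto_const_nhds (x := σ * a)).congr' ?_
    filter_upwards [ev_ne] with T hT
    rw [zpow_one]; field_simp
  rcases α with _ | _ | _
  · simp [wt, wc]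
  · simpa [wt, wc] using m1
  · simpa [wt, wc] using m1

lemma one_lim (hη : η ^ 4 = -1) (α : SignType) {a : ℂ} (ha : a ≠ 0)
    (e f : List (ℂ × SignType)) :
    Tendsto (fun T : ℝ => one η σ (a * T) α e f /
        (T : ℂ) ^ ((α : ℤ) * (α : ℤ) + (2 * (e.length : ℤ) + 2 * ((α : ℤ) * tot e)) +
          (2 * (f.length : ℤ) - 2 * ((α : ℤ) * tot f)))) atTop
      (𝓝 (wc σ α * (e.map (fun d => phF η α d.2)).prod * (f.map (fun d => phG η α d.2)).prod *
        a ^ ((α : ℤ) * (α : ℤ) + (2 * (e.length : ℤ) + 2 * ((α : ℤ) * tot e)) +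
          (2 * (f.length : ℤ) - 2 * ((α : ℤ) * tot f))))) :=
  lim_mul ha (lim_mul ha (wt_lim α ha) (prodF_lim hη α ha e)) (prodG_lim hη α ha f)

lemma G2_lim (α β : SignType) (a b : ℂ) :
    Tendsto (fun T : ℝ => G η α β (a * T) (b * T) / (T : ℂ) ^ (2 - 2 * ((α : ℤ) * (β : ℤ)))) atTop
      (𝓝 (G η α β a b)) := by
  refine tendsto_const_nhds.congr' ?_
  filter_upwards [ev_ne] with T hT
  have hl : ∀ k, lin η k (a * T) (b * T) = lin η k a b * T := fun k => by unfold lin; ring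
  rw [eq_div_iff (zpow_ne_zero _ hT)]
  have z2 : (T : ℂ) ^ (2 : ℤ) = (T : ℂ) ^ 2 := by norm_cast
  have z4 : (T : ℂ) ^ (4 : ℤ) = (T : ℂ) ^ 4 := by norm_cast
  rcases α with _ | _ | _ <;> rcases β with _ | _ | _ <;>
    simp only [G, hl, SignType.zero_eq_zero, SignType.neg_eq_neg_one, SignType.pos_eq_one,
      SignType.coe_zero, SignType.coe_one, SignType.coe_neg_one, mul_zero, mul_one,
      sub_zero, mul_neg, neg_neg, sub_neg_eq_add, sub_self, zpow_zero] <;>
    norm_num [z2, z4] <;> ring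

lemma sch_lim {X : List ℂ} {φ : ℝ → List (ℂ × SignType) → ℂ} {ψ : List (ℂ × SignType) → ℂ}
    (h : ∀ e, e.map Prod.fst = X → Tendsto (fun T => φ T e) atTop (𝓝 (ψ e))) :
    Tendsto (fun T => sch X (φ T)) atTop (𝓝 (sch X ψ)) := by
  induction X generalizing φ ψ with
  | nil => exact h [] rfl
  | cons p X ih =>
    simp only [sch]
    refine tendsto_finsetSum _ fun a _ => ?_
    exact ih (φ := fun T e => φ T ((p, a) :: e)) fun e he => h _ (by simp [he])

lemma ph_prod (hη : η ^ 4 = -1) (α : SignType) (e : List (ℂ × SignType)) :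
    (e.map (fun d => phF η α d.2)).prod * (e.map (fun d => phG η α d.2)).prod = 1 := by
  induction e with
  | nil => simp
  | cons c e ih =>
    simp only [List.map_cons, List.prod_cons]
    linear_combination (phF η α c.2 * phG η α c.2) * ih + phF_mul_phG hη α c.2

/-- one term of the joint limit -/
lemma term_lim (hη : η ^ 4 = -1) (α β : SignType) {a b : ℂ} (ha : a ≠ 0) (hb : b ≠ 0)
    (e f : List (ℂ × SignType)) :
    Tendsto (fun T : ℝ => G η α β (a * T) (b * T) * (one η σ (a * T) α e f *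
        one η σ (b * T) β f e * rest η σ om ((α : ℤ) - (β : ℤ)) e f * om ^ (β : ℤ)) /
        (T : ℂ) ^ (4 * (e.length + f.length) + 2)) atTop
      (𝓝 (if α = β then G η α α a b * (wc σ α ^ 2 * (a * b) ^ ((α : ℤ) * (α : ℤ)) *
        (a * b) ^ (2 * (e.length + f.length)) * term η σ om e f * om ^ (α : ℤ)) else 0)) := by
  by_cases hk : (α : ℤ) - (β : ℤ) + tot e = tot f
  swap
  · have hr : rest η σ om ((α : ℤ) - (β : ℤ)) e f = 0 := by rw [rest, if_neg hk]
    have ht : (if α = β then G η α α a b * (wc σ α ^ 2 * (a * b) ^ ((α : ℤ) * (α : ℤ)) *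
        (a * b) ^ (2 * (e.length + f.length)) * term η σ om e f * om ^ (α : ℤ)) else 0) = 0 := by
      split_ifs with h
      · subst h
        have : term η σ om e f = 0 := by
          rw [term, if_neg]
          intro h'; exact hk (by rw [sub_self, zero_add]; exact h')
        rw [this]; ring
      · rfl
    rw [ht, hr]
    simp
  have l1 := one_lim (σ := σ) hη α ha e f
  have l2 := one_lim (σ := σ) hη β hb f e
  have l0 := G2_lim (η := η) α β a b
  have l3 := ((l0.mul l1).mul l2).mul_const (rest η σ om ((α : ℤ) - (β : ℤ)) e f * om ^ (β : ℤ))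
  set m1 : ℤ := (α : ℤ) * (α : ℤ) + (2 * (e.length : ℤ) + 2 * ((α : ℤ) * tot e)) +
          (2 * (f.length : ℤ) - 2 * ((α : ℤ) * tot f)) with hm1
  set m2 : ℤ := (β : ℤ) * (β : ℤ) + (2 * (f.length : ℤ) + 2 * ((β : ℤ) * tot f)) +
          (2 * (e.length : ℤ) - 2 * ((β : ℤ) * tot e)) with hm2
  have hsum : (2 - 2 * ((α : ℤ) * (β : ℤ))) + m1 + m2 =
      ((4 * (e.length + f.length) + 2 : ℕ) : ℤ) - ((α : ℤ) - (β : ℤ)) ^ 2 := by
    have : tot f = (α : ℤ) - (β : ℤ) + tot e := hk.symm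
    rw [hm1, hm2, this]; push_cast; ring
  by_cases hαβ : α = β
  · subst hαβ
    rw [if_pos rfl]
    have htot : tot e = tot f := by rw [← hk]; ring
    have hm1' : m1 = (α : ℤ) * (α : ℤ) + ((2 * (e.length + f.length) : ℕ) : ℤ) := by
      rw [hm1, htot]; push_cast; ring
    have hm2' : m2 = (α : ℤ) * (α : ℤ) + ((2 * (e.length + f.length) : ℕ) : ℤ) := by
      rw [hm2, htot]; push_cast; ring
    have hlim : G η α α a b * (wc σ α * (e.map (fun d => phF η α d.2)).prod *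
        (f.map (fun d => phG η α d.2)).prod * a ^ m1) *
        (wc σ α * (f.map (fun d => phF η α d.2)).prod *
        (e.map (fun d => phG η α d.2)).prod * b ^ m2) *
        (rest η σ om ((α : ℤ) - (α : ℤ)) e f * om ^ (α : ℤ)) =
        G η α α a b * (wc σ α ^ 2 * (a * b) ^ ((α : ℤ) * (α : ℤ)) *
        (a * b) ^ (2 * (e.length + f.length)) * term η σ om e f * om ^ (α : ℤ)) := by
      rw [sub_self, rest_zero, hm1', hm2', zpow_add₀ ha, zpow_add₀ hb, zpow_natCast, zpow_natCast,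
        mul_zpow, mul_pow]
      have p1 := ph_prod hη α e
      have p2 := ph_prod hη α f
      set A := (e.map (fun d => phF η α d.2)).prod
      set B := (f.map (fun d => phG η α d.2)).prod
      set C := (f.map (fun d => phF η α d.2)).prod
      set D := (e.map (fun d => phG η α d.2)).prod
      linear_combination (G η α α a b * (wc σ α ^ 2 * (a ^ ((α : ℤ) * (α : ℤ)) *
        b ^ ((α : ℤ) * (α : ℤ))) * (a ^ (2 * (e.length + f.length)) *
        b ^ (2 * (e.length + f.length))) * term η σ om e f * om ^ (α : ℤ))) *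
        ((C * B) * p1 + p2)
    rw [hlim] at l3
    refine l3.congr' ?_
    filter_upwards [ev_ne] with T hT
    have hT2 : (T : ℂ) ^ (4 * (e.length + f.length) + 2) =
        (T : ℂ) ^ (2 - 2 * ((α : ℤ) * (α : ℤ))) * (T : ℂ) ^ m1 * (T : ℂ) ^ m2 := by
      rw [← zpow_add₀ hT, ← zpow_add₀ hT, hsum, sub_self, ← zpow_natCast]
      norm_num
    rw [hT2]
    have z0 := zpow_ne_zero (2 - 2 * ((α : ℤ) * (α : ℤ))) hT
    have z1 := zpow_ne_zero m1 hT
    have z2 := zpow_ne_zero m2 hT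
    field_simp
  · rw [if_neg hαβ]
    have hpos : 0 < ((α : ℤ) - (β : ℤ)) ^ 2 := by
      have : (α : ℤ) - (β : ℤ) ≠ 0 := by
        intro h
        apply hαβ
        have h' : (α : ℤ) = (β : ℤ) := by linarith
        rcases α with _ | _ | _ <;> rcases β with _ | _ | _ <;> simp_all
      positivity
    have l4 := l3.mul (zpow_neg_lim hpos)
    rw [mul_zero] at l4
    refine l4.congr' ?_
    filter_upwards [ev_ne] with T hT
    have hT2 : (T : ℂ) ^ (4 * (e.length + f.length) + 2) =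
        (T : ℂ) ^ (2 - 2 * ((α : ℤ) * (β : ℤ))) * (T : ℂ) ^ m1 * (T : ℂ) ^ m2 *
          (T : ℂ) ^ (((α : ℤ) - (β : ℤ)) ^ 2) := by
      rw [← zpow_add₀ hT, ← zpow_add₀ hT, hsum, ← zpow_add₀ hT, ← zpow_natCast]
      congr 1; ring
    rw [hT2, zpow_neg]
    have z0 := zpow_ne_zero (2 - 2 * ((α : ℤ) * (β : ℤ))) hT
    have z1 := zpow_ne_zero m1 hT
    have z2 := zpow_ne_zero m2 hT
    have z3 := zpow_ne_zero (((α : ℤ) - (β : ℤ)) ^ 2) hT
    field_simp

lemma sch_div (X : List ℂ) (c : ℂ) (φ : List (ℂ × SignType) → ℂ) :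
    sch X φ / c = sch X (fun e => φ e / c) := by
  rw [div_eq_inv_mul, ← sch_mul_left]
  exact sch_congr fun e _ => (div_eq_inv_mul _ _).symm

theorem N_joint (hη : η ^ 4 = -1) (hσ : σ ^ 2 = 2 - η + η ^ 3) (hom : om ≠ 0) (a b : ℂ)
    (X Y : List ℂ) (ha : a ≠ 0) (hb : b ≠ 0) :
    Tendsto (fun T : ℝ => N η σ om (a * T :: X) (b * T :: Y) /
        (T : ℂ) ^ (4 * (X.length + Y.length) + 2))
      atTop (𝓝 ((a * b) ^ (2 * (X.length + Y.length)) *
        ((a + b) ^ 2 + (2 - η + η ^ 3) * (om + om⁻¹) * (a * b)) * N η σ om X Y)) := by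
  have hfun : ∀ T : ℝ, N η σ om (a * T :: X) (b * T :: Y) /
      (T : ℂ) ^ (4 * (X.length + Y.length) + 2) = ∑ α : SignType, ∑ β : SignType,
      sch X (fun e => sch Y (fun f => G η α β (a * T) (b * T) * (one η σ (a * T) α e f *
        one η σ (b * T) β f e * rest η σ om ((α : ℤ) - (β : ℤ)) e f * om ^ (β : ℤ)) /
        (T : ℂ) ^ (4 * (X.length + Y.length) + 2))) := by
    intro T
    rw [N_cons_cons hη hom, Finset.sum_div]
    refine Finset.sum_congr rfl fun α _ => ?_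
    rw [Finset.sum_div]
    refine Finset.sum_congr rfl fun β _ => ?_
    rw [← sch_mul_left, sch_div]
    refine sch_congr fun e _ => ?_
    rw [← sch_mul_left, sch_div]
  have hval : ∑ α : SignType, ∑ β : SignType, sch X (fun e => sch Y (fun f =>
      (if α = β then G η α α a b * (wc σ α ^ 2 * (a * b) ^ ((α : ℤ) * (α : ℤ)) *
        (a * b) ^ (2 * (X.length + Y.length)) * term η σ om e f * om ^ (α : ℤ)) else 0))) =
      (a * b) ^ (2 * (X.length + Y.length)) *
        ((a + b) ^ 2 + (2 - η + η ^ 3) * (om + om⁻¹) * (a * b)) * N η σ om X Y := by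
    have hd : ∀ α : SignType, (∑ β : SignType, sch X (fun e => sch Y (fun f =>
        (if α = β then G η α α a b * (wc σ α ^ 2 * (a * b) ^ ((α : ℤ) * (α : ℤ)) *
        (a * b) ^ (2 * (X.length + Y.length)) * term η σ om e f * om ^ (α : ℤ)) else 0)))) =
        (G η α α a b * wc σ α ^ 2 * (a * b) ^ ((α : ℤ) * (α : ℤ)) *
        (a * b) ^ (2 * (X.length + Y.length)) * om ^ (α : ℤ)) * N η σ om X Y := by
      intro α
      rw [Finset.sum_eq_single α]
      · unfold N
        rw [← sch_mul_left]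
        refine sch_congr fun e _ => ?_
        rw [← sch_mul_left]
        refine sch_congr fun f _ => ?_
        rw [if_pos rfl]; ring
      · intro β _ hβ
        simp only [if_neg (Ne.symm hβ), sch_zero]
      · intro h; exact absurd (Finset.mem_univ _) h
    simp only [hd]
    rw [sum3]
    have g0 : G η .zero .zero a b = (a + b) ^ 2 := by
      change lin η 4 a b ^ 2 = _
      unfold lin; rw [hη]; ring
    have g1 : G η .neg .neg a b = 1 := rfl
    have g2 : G η .pos .pos a b = 1 := rfl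
    have c0 : ((SignType.zero : SignType) : ℤ) = 0 := rfl
    have c1 : ((SignType.neg : SignType) : ℤ) = -1 := rfl
    have c2 : ((SignType.pos : SignType) : ℤ) = 1 := rfl
    rw [g0, g1, g2, c0, c1, c2]
    have w0 : wc σ .zero = 1 := rfl
    have w1 : wc σ .neg = σ := rfl
    have w2 : wc σ .pos = σ := rfl
    have q1 : (a * b) ^ ((-1 : ℤ) * -1) = a * b := by norm_num
    have q2 : (a * b) ^ ((1 : ℤ) * 1) = a * b := by norm_num
    rw [w0, w1, w2, hσ, q1, q2, zpow_one, zpow_neg_one, mul_zero, zpow_zero, zpow_zero]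
    ring
  rw [← hval]
  simp only [hfun]
  refine tendsto_finsetSum _ fun α _ => tendsto_finsetSum _ fun β _ => ?_
  refine sch_lim (φ := fun T e => sch Y (fun f => G η α β (a * T) (b * T) *
    (one η σ (a * T) α e f * one η σ (b * T) β f e * rest η σ om ((α : ℤ) - (β : ℤ)) e f *
    om ^ (β : ℤ)) / (T : ℂ) ^ (4 * (X.length + Y.length) + 2))) fun e he => ?_
  refine sch_lim (φ := fun T f => G η α β (a * T) (b * T) *
    (one η σ (a * T) α e f * one η σ (b * T) β f e * rest η σ om ((α : ℤ) - (β : ℤ)) e f *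
    om ^ (β : ℤ)) / (T : ℂ) ^ (4 * (X.length + Y.length) + 2)) fun f hf => ?_
  have h := term_lim (σ := σ) (om := om) hη α β ha hb e f
  have le : e.length = X.length := by rw [← he, List.length_map]
  have lf : f.length = Y.length := by rw [← hf, List.length_map]
  rw [le, lf] at h
  exact h

end NUGas
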