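import Pool.Agent.NUF.Gas.Poly2
import Pool.Agent.NUF.Gas.Cross
import Pool.Agent.NUF.Gas.Joint

/-!
# The charge sum is a polynomial in every line, part 3: degree, extreme coefficients; `N_data`
-/

open Polynomial Filter Topology

namespace NUGas

variable {η σ om : ℂ}

lemma deg2 {p q : ℂ[X]} {m n : ℕ} {a b : ℂ} (hp : p.natDegree ≤ m ∧ p.coeff m = a)
    (hq : q.natDegree ≤ n ∧ q.coeff n = b) :
    (p * q).natDegree ≤ m + n ∧ (p * q).coeff (m + n) = a * b :=
  ⟨natDegree_mul_le_of_le hp.1 hq.1, by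
    rw [coeff_mul_add_eq_of_natDegree_le hp.1 hq.1, hp.2, hq.2]⟩

lemma degL (k : ℕ) (x : ℂ) : (LP η k x).natDegree ≤ 1 ∧ (LP η k x).coeff 1 = η ^ k := by
  constructor
  · unfold LP; compute_degree
  · unfold LP; rw [coeff_sub, coeff_C_mul, coeff_X_one, coeff_C]; simp

lemma degC (c : ℂ) : (C c : ℂ[X]).natDegree ≤ 0 ∧ (C c : ℂ[X]).coeff 0 = c :=
  ⟨by simp, by simp⟩

lemma castLe {d n : ℕ} {z : ℤ} (h : d ≤ n) (hz : (n : ℤ) = z) : (d : ℤ) ≤ z := by
  rw [← hz]; exact_mod_cast h

lemma FP_natDegree (a b : SignType) (x : ℂ) :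
    ((FP η a b x).natDegree : ℤ) ≤ 5 + 2 * (a : ℤ) * (b : ℤ) := by
  have L := fun k => degL (η := η) k x
  rcases a with _ | _ | _ <;> rcases b with _ | _ | _
  · exact castLe (deg2 (L 0) (deg2 (deg2 (deg2 (L 2) (L 3)) (L 5)) (L 6))).1 rfl
  · exact castLe (deg2 (degC η) (deg2 (deg2 (L 1) (L 7)) (deg2 (deg2 (L 3) (L 5)) (L 6)))).1 rfl
  · exact castLe (deg2 (degC (η ^ 7)) (deg2 (deg2 (L 1) (L 7))
      (deg2 (deg2 (L 2) (L 3)) (L 5)))).1 rfl
  · exact castLe (deg2 (degC (η ^ 7)) (deg2 (deg2 (L 1) (L 7))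
      (deg2 (deg2 (L 2) (L 3)) (L 5)))).1 rfl
  · exact castLe (deg2 (deg2 (deg2 (L 0) (L 1)) (L 7))
      (deg2 (deg2 (deg2 (L 2) (L 3)) (L 5)) (L 6))).1 rfl
  · exact castLe (deg2 (degC (η ^ 5)) (deg2 (L 1) (deg2 (L 2) (L 3)))).1 rfl
  · exact castLe (deg2 (degC η) (deg2 (deg2 (L 1) (L 7)) (deg2 (deg2 (L 3) (L 5)) (L 6)))).1 rfl
  · exact castLe (deg2 (degC (η ^ 3)) (deg2 (L 7) (deg2 (L 5) (L 6)))).1 rfl
  · exact castLe (deg2 (deg2 (deg2 (L 0) (L 1)) (L 7))
      (deg2 (deg2 (deg2 (L 2) (L 3)) (L 5)) (L 6))).1 rfl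

lemma sqe (p : ℂ[X]) : p ^ 2 = p * p := sq p

lemma GP_natDegree (a b : SignType) (x : ℂ) :
    ((GP η a b x).natDegree : ℤ) ≤ 2 - 2 * (a : ℤ) * (b : ℤ) := by
  have L := fun k => degL (η := η) k x
  rcases a with _ | _ | _ <;> rcases b with _ | _ | _ <;> simp only [GP, sqe]
  · exact castLe (deg2 (L 4) (L 4)).1 rfl
  · exact castLe (deg2 (degC (η ^ 7)) (deg2 (L 5) (L 5))).1 rfl
  · exact castLe (deg2 (degC η) (deg2 (L 3) (L 3))).1 rfl
  · exact castLe (deg2 (degC η) (deg2 (L 3) (L 3))).1 rfl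
  · exact castLe (n := 0) (by simp) rfl
  · exact castLe (deg2 (degC (η ^ 3)) (deg2 (deg2 (L 2) (L 3)) (deg2 (L 2) (L 3)))).1 rfl
  · exact castLe (deg2 (degC (η ^ 7)) (deg2 (L 5) (L 5))).1 rfl
  · exact castLe (deg2 (degC (η ^ 5)) (deg2 (deg2 (L 5) (L 6)) (deg2 (L 5) (L 6)))).1 rfl
  · exact castLe (n := 0) (by simp) rfl

lemma WP_natDegree (a : SignType) : ((WP σ a).natDegree : ℤ) ≤ (a : ℤ) * (a : ℤ) := by
  rcases a with _ | _ | _ <;> simp only [WP]
  · exact castLe (n := 0) (by simp) rfl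
  · exact castLe (n := 1) (by compute_degree) rfl
  · exact castLe (n := 1) (by compute_degree) rfl

/-- degree of a product over lines -/
lemma natDegree_lines {P : SignType → ℂ → ℂ[X]} {k l : ℤ}
    (h : ∀ d x, ((P d x).natDegree : ℤ) ≤ k + l * ((d : SignType) : ℤ)) (e : List (ℂ × SignType)) :
    (((e.map (fun d => P d.2 d.1)).prod).natDegree : ℤ) ≤ k * e.length + l * tot e := by
  induction e with
  | nil => simp [tot]
  | cons c e ih =>
    rw [List.map_cons, List.prod_cons, tot_cons]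
    have h1 : ((P c.2 c.1 * (e.map (fun d => P d.2 d.1)).prod).natDegree : ℤ) ≤
        (P c.2 c.1).natDegree + ((e.map (fun d => P d.2 d.1)).prod).natDegree := by
      exact_mod_cast natDegree_mul_le
    have h2 := h c.2 c.1
    simp only [List.length_cons]
    push_cast
    linarith

lemma oneP_natDegree (a : SignType) (e f : List (ℂ × SignType)) :
    ((oneP η σ a e f).natDegree : ℤ) ≤ (a : ℤ) * (a : ℤ) + 5 * e.length + 2 * f.length +
      2 * (a : ℤ) * (tot e - tot f) := by
  unfold oneP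
  have h1 := WP_natDegree (σ := σ) a
  have h2 := natDegree_lines (P := fun d x => FP η a d x) (k := 5) (l := 2 * (a : ℤ))
    (fun d x => FP_natDegree a d x) e
  have h3 := natDegree_lines (P := fun d x => GP η a d x) (k := 2) (l := - (2 * (a : ℤ)))
    (fun d x => by have := GP_natDegree (η := η) a d x; linarith) f
  have h4 : ((WP σ a * (e.map (fun d => FP η a d.2 d.1)).prod *
      (f.map (fun d => GP η a d.2 d.1)).prod).natDegree : ℤ) ≤
      (WP σ a).natDegree + ((e.map (fun d => FP η a d.2 d.1)).prod).natDegree +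
      ((f.map (fun d => GP η a d.2 d.1)).prod).natDegree := by
    exact_mod_cast natDegree_mul_le.trans (Nat.add_le_add_right natDegree_mul_le _)
  linarith

/-- top coefficient of a product over lines -/
lemma coeff_lines {P : SignType → ℂ → ℂ[X]} {u : ℂ} (hu : u ≠ 0) (n : ℕ)
    (h : ∀ d x, (P d x).natDegree ≤ n ∧ (P d x).coeff n = u ^ ((d : SignType) : ℤ))
    (e : List (ℂ × SignType)) :
    ((e.map (fun d => P d.2 d.1)).prod).natDegree ≤ n * e.length ∧
      ((e.map (fun d => P d.2 d.1)).prod).coeff (n * e.length) = u ^ tot e := by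
  induction e with
  | nil => simp [tot]
  | cons c e ih =>
    rw [List.map_cons, List.prod_cons, tot_cons, zpow_add₀ hu, List.length_cons,
      show n * (e.length + 1) = n + n * e.length by ring]
    exact deg2 (h c.2 c.1) ih

lemma FP_coeff (hη : η ^ 4 = -1) (d : SignType) (x : ℂ) :
    (FP η .zero d x).natDegree ≤ 5 ∧ (FP η .zero d x).coeff 5 = η ^ (d : ℤ) := by
  have L := fun k => degL (η := η) k x
  have h0 := eta_ne hη
  have h8 := eta8 hη
  rcases d with _ | _ | _
  · have := (deg2 (L 0) (deg2 (deg2 (deg2 (L 2) (L 3)) (L 5)) (L 6)))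
    refine ⟨this.1, this.2.trans ?_⟩
    rw [Fuse.cz]
    linear_combination (η ^ 8 + 1) * h8
  · have := (deg2 (degC η) (deg2 (deg2 (L 1) (L 7)) (deg2 (deg2 (L 3) (L 5)) (L 6))))
    refine ⟨this.1, this.2.trans ?_⟩
    rw [Fuse.cn, Fuse.inv_eta hη]
    linear_combination (η ^ 15 + η ^ 7) * h8
  · have := (deg2 (degC (η ^ 7)) (deg2 (deg2 (L 1) (L 7)) (deg2 (deg2 (L 2) (L 3)) (L 5))))
    refine ⟨this.1, this.2.trans ?_⟩
    rw [Fuse.cp]
    linear_combination (η ^ 17 + η ^ 9 + η) * h8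

lemma GP_coeff (hη : η ^ 4 = -1) (d : SignType) (x : ℂ) :
    (GP η .zero d x).natDegree ≤ 2 ∧ (GP η .zero d x).coeff 2 = (η⁻¹) ^ (d : ℤ) := by
  have L := fun k => degL (η := η) k x
  have h0 := eta_ne hη
  have h8 := eta8 hη
  rcases d with _ | _ | _ <;> simp only [GP, sqe]
  · have := deg2 (L 4) (L 4)
    refine ⟨this.1, this.2.trans ?_⟩
    rw [Fuse.cz]
    linear_combination h8
  · have := deg2 (degC (η ^ 7)) (deg2 (L 5) (L 5))
    refine ⟨this.1, this.2.trans ?_⟩
    rw [Fuse.cn, inv_inv]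
    linear_combination (η ^ 9 + η) * h8
  · have := deg2 (degC η) (deg2 (L 3) (L 3))
    refine ⟨this.1, this.2.trans ?_⟩
    rw [Fuse.cp, Fuse.inv_eta hη]
    ring

lemma oneP_coeff (hη : η ^ 4 = -1) (e f : List (ℂ × SignType)) (h : tot e = tot f) :
    (oneP η σ .zero e f).coeff (5 * e.length + 2 * f.length) = 1 := by
  have h0 := eta_ne hη
  have h1 := coeff_lines (P := fun d x => FP η .zero d x) h0 5 (fun d x => FP_coeff hη d x) e
  have h2 := coeff_lines (P := fun d x => GP η .zero d x) (inv_ne_zero h0) 2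
    (fun d x => GP_coeff hη d x) f
  have h3 := (deg2 h1 h2).2
  unfold oneP
  simp only [WP, one_mul]
  rw [h3, h, ← mul_zpow, mul_inv_cancel₀ h0, one_zpow]

lemma sch_coeff (X : List ℂ) (n : ℕ) (φ : List (ℂ × SignType) → ℂ[X]) :
    (sch X φ).coeff n = sch X (fun e => (φ e).coeff n) :=
  map_sch (Polynomial.lcoeff ℂ n).toAddMonoidHom X φ

lemma RP_coeff (X Y : List ℂ) (n : ℕ) : (RP η σ om X Y).coeff n =
    ∑ a : SignType, sch X (fun e => sch Y (fun f =>
      (oneP η σ a e f).coeff n * rest η σ om (a : ℤ) e f)) := by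
  unfold RP
  rw [finsetSum_coeff]
  refine Finset.sum_congr rfl fun a _ => ?_
  rw [sch_coeff]
  refine sch_congr fun e _ => ?_
  rw [sch_coeff]
  exact sch_congr fun f _ => by simp

/-- one term: coefficients above the top vanish, and for a nonzero charge also the top one -/
lemma oneP_coeff_zero {a : SignType} {e f : List (ℂ × SignType)} {n : ℕ}
    (h : (a : ℤ) * (a : ℤ) = 1 ∧ 5 * e.length + 2 * f.length ≤ n ∨
      5 * e.length + 2 * f.length < n) :
    (oneP η σ a e f).coeff n * rest η σ om (a : ℤ) e f = 0 := by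
  by_cases hn : (a : ℤ) + tot e = tot f
  · have h1 := oneP_natDegree (η := η) (σ := σ) a e f
    have h2 : (tot e : ℤ) - tot f = - (a : ℤ) := by linarith
    rw [h2] at h1
    have h3 : 0 ≤ (a : ℤ) * (a : ℤ) := mul_self_nonneg _
    have : ((oneP η σ a e f).natDegree : ℤ) < n := by
      rcases h with ⟨h4, h5⟩ | h5
      · have h5' : (5 * (e.length : ℤ) + 2 * f.length) ≤ n := by exact_mod_cast h5
        rw [h4] at h1
        nlinarith
      · have h5' : (5 * (e.length : ℤ) + 2 * f.length) < n := by exact_mod_cast h5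
        nlinarith
    rw [coeff_eq_zero_of_natDegree_lt (by exact_mod_cast this), zero_mul]
  · have : rest η σ om (a : ℤ) e f = 0 := by unfold rest; rw [if_neg hn]
    rw [this, mul_zero]

lemma RP_natDegree (X Y : List ℂ) :
    (RP η σ om X Y).natDegree ≤ 5 * X.length + 2 * Y.length := by
  rw [natDegree_le_iff_coeff_eq_zero]
  intro n hn
  rw [RP_coeff]
  refine Finset.sum_eq_zero fun a _ => ?_
  rw [← sch_zero X]
  refine sch_congr fun e he => ?_
  rw [← sch_zero Y]
  refine sch_congr fun f hf => ?_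
  apply oneP_coeff_zero
  right
  rw [← he, ← hf] at hn
  simpa using hn

lemma RP_top (hη : η ^ 4 = -1) (X Y : List ℂ) :
    (RP η σ om X Y).coeff (5 * X.length + 2 * Y.length) = N η σ om X Y := by
  rw [RP_coeff, sum3]
  have hz : ∀ a : SignType, (a : ℤ) * (a : ℤ) = 1 → sch X (fun e => sch Y (fun f =>
      (oneP η σ a e f).coeff (5 * X.length + 2 * Y.length) * rest η σ om (a : ℤ) e f)) = 0 := by
    intro a ha
    rw [← sch_zero X]
    refine sch_congr fun e he => ?_
    rw [← sch_zero Y]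
    refine sch_congr fun f hf => ?_
    apply oneP_coeff_zero
    left
    refine ⟨ha, ?_⟩
    rw [← he, ← hf]
    simp
  rw [hz .neg rfl, hz .pos rfl, add_zero, add_zero, N_eq]
  refine sch_congr fun e he => sch_congr fun f hf => ?_
  by_cases hn : tot e = tot f
  · have h1 : X.length = e.length := by rw [← he]; simp
    have h2 : Y.length = f.length := by rw [← hf]; simp
    rw [h1, h2, oneP_coeff hη e f hn, one_mul]
    rfl
  · have h1 : rest η σ om ((SignType.zero : SignType) : ℤ) e f = 0 := by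
      unfold rest
      rw [if_neg (by rw [show ((SignType.zero : SignType) : ℤ) = 0 from rfl, zero_add]; exact hn)]
    have h2 : rest η σ om 0 e f = 0 := by unfold rest; rw [if_neg (by rwa [zero_add])]
    rw [h1, h2, mul_zero]

/-! ### the value at zero -/

lemma prod_line1 {P : SignType → ℂ → ℂ} {u : ℂ} (hu : u ≠ 0) (K : ℂ → ℂ) {X : List ℂ}
    (h : ∀ x ∈ X, ∀ d, P d x = u ^ ((d : SignType) : ℤ) * K x)
    {e : List (ℂ × SignType)} (he : e.map Prod.fst = X) :
    (e.map (fun d => P d.2 d.1)).prod = u ^ tot e * (X.map K).prod := by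
  induction e generalizing X with
  | nil => subst he; simp [tot]
  | cons c e ih =>
    subst he
    have h1 := ih (X := e.map Prod.fst)
      (fun x hx d => h x (by rw [List.map_cons]; exact List.mem_cons_of_mem _ hx) d) rfl
    have h2 := h c.1 (by simp) c.2
    simp only [List.map_cons, List.prod_cons, tot_cons, zpow_add₀ hu, h1, h2]
    ring

lemma F_at_zero (hη : η ^ 4 = -1) {x : ℂ} (hx : x ≠ 0) (d : SignType) :
    F η .zero d 0 x = (η⁻¹) ^ (d : ℤ) * x ^ 2 := by
  have h0 := eta_ne hη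
  have hl : ∀ k, lin η k 0 x = -x := fun k => by unfold lin; ring
  rcases d with _ | _ | _ <;> simp only [F, hl]
  · rw [Fuse.cz]; field_simp
  · rw [Fuse.cn, inv_inv]; field_simp
  · rw [Fuse.cp, Fuse.inv_eta hη]; field_simp

lemma G_at_zero (hη : η ^ 4 = -1) (x : ℂ) (d : SignType) :
    G η .zero d 0 x = η ^ (d : ℤ) * x ^ 2 := by
  have hl : ∀ k, lin η k 0 x = -x := fun k => by unfold lin; ring
  rcases d with _ | _ | _ <;> simp only [G, hl]
  · rw [Fuse.cz]; ring
  · rw [Fuse.cn, Fuse.inv_eta hη]; ring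
  · rw [Fuse.cp]; ring

lemma N_at_zero (hη : η ^ 4 = -1) {X : List ℂ} (Y : List ℂ) (hX : ∀ x ∈ X, x ≠ 0) :
    N η σ om (0 :: X) Y =
      ((X.map (fun x => x ^ 2)).prod * (Y.map (fun x => x ^ 2)).prod) * N η σ om X Y := by
  have h0 := eta_ne hη
  rw [N_cons, sum3]
  have hz : ∀ a : SignType, (∀ t : ℂ, wt σ a t = σ * t) → sch X (fun e => sch Y (fun f =>
      one η σ 0 a e f * rest η σ om (a : ℤ) e f)) = 0 := by
    intro a ha
    refine (sch_congr fun e he => ?_).trans (sch_zero X)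
    refine (sch_congr fun f hf => ?_).trans (sch_zero Y)
    unfold one
    rw [ha]
    ring
  rw [hz .neg (fun _ => rfl), hz .pos (fun _ => rfl), add_zero, add_zero, N_eq, ← sch_mul_left]
  refine sch_congr fun e he => ?_
  rw [← sch_mul_left]
  refine sch_congr fun f hf => ?_
  rw [show ((SignType.zero : SignType) : ℤ) = 0 from rfl]
  by_cases hn : 0 + tot e = tot f
  · have h1 := prod_line1 (P := fun d x => F η .zero d 0 x) (inv_ne_zero h0) (fun x => x ^ 2)
      (fun x hx d => F_at_zero hη (hX x hx) d) he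
    have h2 := prod_line1 (P := fun d x => G η .zero d 0 x) h0 (fun x => x ^ 2)
      (fun x _ d => G_at_zero hη x d) hf
    have h3 : (η⁻¹) ^ tot e * η ^ tot f = 1 := by
      rw [← hn, zero_add, ← mul_zpow, inv_mul_cancel₀ h0, one_zpow]
    unfold one
    rw [h1, h2]
    simp only [wt]
    linear_combination ((X.map (fun x => x ^ 2)).prod * (Y.map (fun x => x ^ 2)).prod *
      rest η σ om 0 e f) * h3
  · have : rest η σ om 0 e f = 0 := by unfold rest; rw [if_neg hn]
    rw [this]; ring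

/-- the charge sum is a polynomial in each line of the first group -/
theorem N_poly (hη : η ^ 4 = -1) (hσ : σ ^ 2 = 2 - η + η ^ 3) (X Y : List ℂ) (hX : Gen η X) :
    ∃ P : ℂ[X], P.natDegree ≤ 2 * (X.length + Y.length) ∧
      P.coeff (2 * (X.length + Y.length)) = N η σ om X Y ∧
      P.coeff 0 = ((X.map (fun x => x ^ 2)).prod * (Y.map (fun x => x ^ 2)).prod) *
        N η σ om X Y ∧
      ∀ t, Good η t X → N η σ om (t :: X) Y = P.eval t := by
  obtain ⟨P, hP⟩ := DP_dvd (om := om) hη hσ Y hX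
  have hgood : ∀ t, Good η t X → N η σ om (t :: X) Y = P.eval t := by
    intro t ht
    have h1 := RP_eval_good (σ := σ) (om := om) hη Y ht
    rw [hP, eval_mul] at h1
    exact (mul_left_cancel₀ (DP_eval_ne hη ht) h1).symm
  have hdeg : P.natDegree ≤ 2 * (X.length + Y.length) := by
    rcases eq_or_ne P 0 with rfl | hP0
    · simp
    · have h1 := RP_natDegree (η := η) (σ := σ) (om := om) X Y
      rw [hP, (DP_monic X).natDegree_mul' hP0, DP_natDegree] at h1
      omega
  have hcoeff : P.coeff (2 * (X.length + Y.length)) = N η σ om X Y := by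
    rw [← RP_top hη X Y, hP,
      show 5 * X.length + 2 * Y.length = 3 * X.length + 2 * (X.length + Y.length) by ring,
      coeff_mul_add_eq_of_natDegree_le (DP_natDegree X).le hdeg]
    have : (DP η X).coeff (3 * X.length) = 1 := by
      have := (DP_monic (η := η) X).coeff_natDegree
      rwa [DP_natDegree] at this
    rw [this, one_mul]
  refine ⟨P, hdeg, hcoeff, ?_, hgood⟩
  rw [coeff_zero_eq_eval_zero, ← hgood 0 ?_, N_at_zero hη Y hX.1]
  intro x hx
  have hx0 := hX.1 x hx
  refine ⟨hx0.symm, by rw [mul_zero]; exact hx0.symm, ?_⟩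
  exact (mul_ne_zero (eta_ne hη) hx0).symm

/-- **the closed formula satisfies all the properties which determine the disc function** -/
theorem N_data (hη : η ^ 4 = -1) (hσ : σ ^ 2 = 2 - η + η ^ 3) (hom : om ≠ 0) :
    Data η (om + om⁻¹) (N η σ om) where
  nil := N_nil
  perm := fun Y h => N_perm hη Y h
  roles := fun X Y => N_roles hη X Y
  poly := fun X Y hX _ => N_poly hη hσ X Y hX
  cross := fun q X Y hX _ => N_cross hη hσ q X Y hX
  fuse := fun t X Y hX _ => N_fuse hη hσ t X Y hX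
  joint := fun a b X Y ha hb _ _ => N_joint hη hσ hom a b X Y ha hb

end NUGas
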