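import Mathlib

/-!
# The charge sum (closed formula of the disc) and the abstract list of properties

`η` is a primitive 8th root of unity (`η ^ 4 = -1`), `σ ^ 2 = 2 - η - η⁻¹`.
-/

open Polynomial Filter Topology

noncomputable section

namespace NUGas

/-- linear form `η ^ k * a - b` -/
def lin (η : ℂ) (k : ℕ) (a b : ℂ) : ℂ := η ^ k * a - b

/-- pair function inside a group -/
def F (η : ℂ) : SignType → SignType → ℂ → ℂ → ℂ
  | .pos, .pos, a, b => lin η 2 a b * lin η 3 a b * lin η 5 a b * lin η 6 a b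
  | .neg, .neg, a, b => lin η 2 a b * lin η 3 a b * lin η 5 a b * lin η 6 a b
  | .zero, .zero, a, b =>
      lin η 2 a b * lin η 3 a b * lin η 5 a b * lin η 6 a b / (lin η 1 a b * lin η 7 a b)
  | .zero, .pos, a, b => η ^ 7 * (lin η 2 a b * lin η 3 a b * lin η 5 a b) / lin η 0 a b
  | .neg, .zero, a, b => η ^ 7 * (lin η 2 a b * lin η 3 a b * lin η 5 a b) / lin η 0 a b
  | .pos, .zero, a, b => η * (lin η 3 a b * lin η 5 a b * lin η 6 a b) / lin η 0 a b
  | .zero, .neg, a, b => η * (lin η 3 a b * lin η 5 a b * lin η 6 a b) / lin η 0 a b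
  | .neg, .pos, a, b => η ^ 5 * (lin η 2 a b * lin η 3 a b) / (lin η 0 a b * lin η 7 a b)
  | .pos, .neg, a, b => η ^ 3 * (lin η 5 a b * lin η 6 a b) / (lin η 0 a b * lin η 1 a b)

/-- pair function across the face -/
def G (η : ℂ) : SignType → SignType → ℂ → ℂ → ℂ
  | .pos, .pos, _, _ => 1
  | .neg, .neg, _, _ => 1
  | .zero, .zero, a, b => lin η 4 a b ^ 2
  | .zero, .pos, a, b => η * lin η 3 a b ^ 2
  | .neg, .zero, a, b => η * lin η 3 a b ^ 2
  | .pos, .zero, a, b => η ^ 7 * lin η 5 a b ^ 2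
  | .zero, .neg, a, b => η ^ 7 * lin η 5 a b ^ 2
  | .neg, .pos, a, b => η ^ 3 * (lin η 2 a b * lin η 3 a b) ^ 2
  | .pos, .neg, a, b => η ^ 5 * (lin η 5 a b * lin η 6 a b) ^ 2

/-- weight of one line -/
def wt (σ : ℂ) : SignType → ℂ → ℂ
  | .zero, _ => 1
  | .pos, t => σ * t
  | .neg, t => σ * t

/-- sum over all charges of the lines of a list -/
def sch {M : Type*} [AddCommMonoid M] : List ℂ → (List (ℂ × SignType) → M) → M
  | [], φ => φ []
  | p :: X, φ => ∑ a : SignType, sch X (fun e => φ ((p, a) :: e))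

/-- total charge -/
def tot (e : List (ℂ × SignType)) : ℤ := (e.map (fun c => ((c.2 : SignType) : ℤ))).sum

/-- weights and pair functions inside a group -/
def own (η σ : ℂ) : List (ℂ × SignType) → ℂ
  | [] => 1
  | c :: e => wt σ c.2 c.1 * (e.map (fun d => F η c.2 d.2 c.1 d.1)).prod * own η σ e

/-- pair functions across the face -/
def crs (η : ℂ) (e f : List (ℂ × SignType)) : ℂ :=
  (e.map (fun c => (f.map (fun d => G η c.2 d.2 c.1 d.1)).prod)).prod

/-- one term of the charge sum -/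
def term (η σ om : ℂ) (e f : List (ℂ × SignType)) : ℂ :=
  if tot e = tot f then om ^ tot e * own η σ e * own η σ f * crs η e f else 0

/-- the charge sum -/
def N (η σ om : ℂ) (X Y : List ℂ) : ℂ :=
  sch X (fun e => sch Y (fun f => term η σ om e f))

/-- `b` is not an 8th root of unity times `a` -/
def Sep (η a b : ℂ) : Prop := ∀ k : ℕ, η ^ k * a ≠ b

/-- generic list of lines -/
def Gen (η : ℂ) (X : List ℂ) : Prop := (∀ x ∈ X, x ≠ 0) ∧ X.Pairwise (Sep η)

/-- `t` is no pole with respect to the lines `X` -/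
def Good (η t : ℂ) (X : List ℂ) : Prop :=
  ∀ x ∈ X, t ≠ x ∧ η * t ≠ x ∧ t ≠ η * x

/-- The list of properties which determine the disc function. `n'` is the loop weight. -/
structure Data (η n' : ℂ) (W : List ℂ → List ℂ → ℂ) : Prop where
  nil : W [] [] = 1
  perm : ∀ {X X' : List ℂ} (Y : List ℂ), X.Perm X' → W X Y = W X' Y
  roles : ∀ X Y : List ℂ, W X Y = W Y X
  poly : ∀ X Y : List ℂ, Gen η X → Gen η Y → ∃ P : ℂ[X],
    P.natDegree ≤ 2 * (X.length + Y.length) ∧
    P.coeff (2 * (X.length + Y.length)) = W X Y ∧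
    P.coeff 0 = ((X.map (fun x => x ^ 2)).prod * (Y.map (fun x => x ^ 2)).prod) * W X Y ∧
    ∀ t, Good η t X → W (t :: X) Y = P.eval t
  cross : ∀ (q : ℂ) (X Y : List ℂ), Gen η (q :: X) → Gen η Y →
    W (η ^ 3 * q :: q :: X) Y = (2 - η + η ^ 3) * η ^ 3 * q ^ 2 *
      ((X.map (fun x => ((x + η * q) * (x + η ^ 2 * q)) ^ 2)).prod *
       (Y.map (fun x => ((x + η * q) * (x + η ^ 2 * q)) ^ 2)).prod) * W X Y
  fuse : ∀ (t : ℂ) (X Y : List ℂ), Gen η (t :: X) → Gen η Y →
    W (η ^ 2 * t :: t :: X) Y = 2 * (η * t) ^ 2 *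
      ((X.map (fun x => (x + η * t) ^ 2)).prod * (Y.map (fun x => (x + η * t) ^ 2)).prod) *
      W (η * t :: X) Y
  joint : ∀ (a b : ℂ) (X Y : List ℂ), a ≠ 0 → b ≠ 0 → Gen η X → Gen η Y →
    Tendsto (fun T : ℝ => W (a * T :: X) (b * T :: Y) / (T : ℂ) ^ (4 * (X.length + Y.length) + 2))
      atTop (𝓝 ((a * b) ^ (2 * (X.length + Y.length)) *
        ((a + b) ^ 2 + (2 - η + η ^ 3) * n' * (a * b)) * W X Y))

end NUGas

end
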