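import Pool.Agent.NUF.Gas.Uniq

open Polynomial Filter Topology

namespace NUGas

variable {η σ om : ℂ}

section sch
variable {M : Type*} [AddCommMonoid M]

lemma sch_congr {X : List ℂ} {φ ψ : List (ℂ × SignType) → M}
    (h : ∀ e, e.map Prod.fst = X → φ e = ψ e) : sch X φ = sch X ψ := by
  induction X generalizing φ ψ with
  | nil => exact h [] rfl
  | cons p X ih =>
    simp only [sch]
    refine Finset.sum_congr rfl fun a _ => ih fun e he => h _ ?_
    simp [he]

lemma sch_add (X : List ℂ) (φ ψ : List (ℂ × SignType) → M) :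
    sch X (fun e => φ e + ψ e) = sch X φ + sch X ψ := by
  induction X generalizing φ ψ with
  | nil => rfl
  | cons p X ih => simp only [sch, ih, Finset.sum_add_distrib]

lemma sch_zero (X : List ℂ) : sch X (fun _ => (0 : M)) = 0 := by
  induction X with
  | nil => rfl
  | cons p X ih => simp only [sch, ih, Finset.sum_const_zero]

lemma sch_sum {ι : Type*} (s : Finset ι) (X : List ℂ) (φ : ι → List (ℂ × SignType) → M) :
    sch X (fun e => ∑ i ∈ s, φ i e) = ∑ i ∈ s, sch X (φ i) := by
  classical
  induction s using Finset.induction_on with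
  | empty => simp [sch_zero]
  | insert a s ha ih => simp only [Finset.sum_insert ha, sch_add, ih]

lemma sch_comm (X Y : List ℂ) (φ : List (ℂ × SignType) → List (ℂ × SignType) → M) :
    sch X (fun e => sch Y (fun f => φ e f)) = sch Y (fun f => sch X (fun e => φ e f)) := by
  induction X generalizing φ with
  | nil => rfl
  | cons p X ih =>
    simp only [sch]
    rw [sch_sum]
    exact Finset.sum_congr rfl fun a _ => ih _

lemma map_sch {M' : Type*} [AddCommMonoid M'] (g : M →+ M') (X : List ℂ)
    (φ : List (ℂ × SignType) → M) : g (sch X φ) = sch X (fun e => g (φ e)) := by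
  induction X generalizing φ with
  | nil => rfl
  | cons p X ih => simp only [sch, map_sum, ih]

lemma sch_perm {X X' : List ℂ} (h : X.Perm X') {φ : List (ℂ × SignType) → M}
    (hφ : ∀ e e', e.Perm e' → φ e = φ e') : sch X φ = sch X' φ := by
  induction h generalizing φ with
  | nil => rfl
  | cons p _ ih =>
    simp only [sch]
    exact Finset.sum_congr rfl fun a _ => ih fun e e' he => hφ _ _ (he.cons _)
  | swap p q l =>
    simp only [sch]
    rw [Finset.sum_comm]
    refine Finset.sum_congr rfl fun a _ => Finset.sum_congr rfl fun b _ => sch_congr fun e _ => ?_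
    exact hφ _ _ (List.Perm.swap _ _ _)
  | trans _ _ ih1 ih2 => exact (ih1 hφ).trans (ih2 hφ)

end sch

lemma sch_mul_left (X : List ℂ) (c : ℂ) (φ : List (ℂ × SignType) → ℂ) :
    sch X (fun e => c * φ e) = c * sch X φ :=
  (map_sch (AddMonoidHom.mulLeft c) X φ).symm

/-! ### linear forms -/

lemma lin_swap (hη : η ^ 4 = -1) {j k : ℕ} (h : j + k = 8) (a b : ℂ) :
    lin η j b a = -(η ^ j) * lin η k a b := by
  unfold lin
  have : η ^ j * η ^ k = 1 := by rw [← pow_add, h, eta8 hη]
  linear_combination a * this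

lemma lin_swap0 (a b : ℂ) : lin η 0 b a = - lin η 0 a b := by unfold lin; ring

/-- shift of the first argument -/
lemma lin_shift (j k : ℕ) (a b : ℂ) : lin η k (η ^ j * a) b = lin η (k + j) a b := by
  unfold lin; rw [pow_add]; ring

lemma lin_add8 (hη : η ^ 4 = -1) (k : ℕ) (a b : ℂ) : lin η (k + 8) a b = lin η k a b := by
  unfold lin; rw [pow_add, eta8 hη, mul_one]

lemma div_unit {u v a b : ℂ} (hu : u ≠ 0) (h : v = u) : (v * a) / (u * b) = a / b := by
  rw [h, mul_div_mul_left _ _ hu]

lemma F_symm (hη : η ^ 4 = -1) (a b : SignType) (x y : ℂ) : F η a b x y = F η b a y x := by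
  have h0 := eta_ne hη
  have e1 := lin_swap hη (j := 1) (k := 7) rfl x y
  have e2 := lin_swap hη (j := 2) (k := 6) rfl x y
  have e3 := lin_swap hη (j := 3) (k := 5) rfl x y
  have e5 := lin_swap hη (j := 5) (k := 3) rfl x y
  have e6 := lin_swap hη (j := 6) (k := 2) rfl x y
  have e7 := lin_swap hη (j := 7) (k := 1) rfl x y
  have e0 := lin_swap0 (η := η) x y
  have h8 := eta8 hη
  have key : lin η 2 y x * lin η 3 y x * lin η 5 y x * lin η 6 y x =
      lin η 2 x y * lin η 3 x y * lin η 5 x y * lin η 6 x y := by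
    rw [e2, e3, e5, e6]
    linear_combination (lin η 2 x y * lin η 3 x y * lin η 5 x y * lin η 6 x y) * (η ^ 8 + 1) * h8
  have k1 : η ^ 7 * (lin η 2 x y * lin η 3 x y * lin η 5 x y) / lin η 0 x y =
      η * (lin η 3 y x * lin η 5 y x * lin η 6 y x) / lin η 0 y x := by
    rw [e3, e5, e6, e0]
    rw [show η * (-(η ^ 3) * lin η 5 x y * (-(η ^ 5) * lin η 3 x y) * (-(η ^ 6) * lin η 2 x y)) =
      (-1) * (η ^ 7 * (lin η 2 x y * lin η 3 x y * lin η 5 x y)) by
        linear_combination (-(η ^ 7 * (lin η 2 x y * lin η 3 x y * lin η 5 x y))) * h8,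
      show -lin η 0 x y = (-1) * lin η 0 x y by ring, div_unit (by norm_num) rfl]
  have k2 : η * (lin η 3 x y * lin η 5 x y * lin η 6 x y) / lin η 0 x y =
      η ^ 7 * (lin η 2 y x * lin η 3 y x * lin η 5 y x) / lin η 0 y x := by
    rw [e3, e5, e2, e0]
    rw [show η ^ 7 * (-(η ^ 2) * lin η 6 x y * (-(η ^ 3) * lin η 5 x y) * (-(η ^ 5) * lin η 3 x y)) =
      (-1) * (η * (lin η 3 x y * lin η 5 x y * lin η 6 x y)) by
        linear_combination (-(η * (lin η 6 x y * lin η 3 x y * lin η 5 x y))) * (η ^ 8 + 1) * h8,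
      show -lin η 0 x y = (-1) * lin η 0 x y by ring, div_unit (by norm_num) rfl]
  have k3 : η ^ 5 * (lin η 2 x y * lin η 3 x y) / (lin η 0 x y * lin η 7 x y) =
      η ^ 3 * (lin η 5 y x * lin η 6 y x) / (lin η 0 y x * lin η 1 y x) := by
    rw [e5, e6, e0, e1]
    rw [show η ^ 3 * (-(η ^ 5) * lin η 3 x y * (-(η ^ 6) * lin η 2 x y)) =
      (η ^ 1) * (η ^ 5 * (lin η 2 x y * lin η 3 x y)) by
        linear_combination (η ^ 6 * (lin η 2 x y * lin η 3 x y)) * h8,
      show -lin η 0 x y * (-(η ^ 1) * lin η 7 x y) = (η ^ 1) * (lin η 0 x y * lin η 7 x y) by ring,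
      div_unit (pow_ne_zero _ h0) rfl]
  have k4 : η ^ 3 * (lin η 5 x y * lin η 6 x y) / (lin η 0 x y * lin η 1 x y) =
      η ^ 5 * (lin η 2 y x * lin η 3 y x) / (lin η 0 y x * lin η 7 y x) := by
    rw [e2, e3, e0, e7]
    rw [show η ^ 5 * (-(η ^ 2) * lin η 6 x y * (-(η ^ 3) * lin η 5 x y)) =
      (η ^ 7) * (η ^ 3 * (lin η 5 x y * lin η 6 x y)) by ring,
      show -lin η 0 x y * (-(η ^ 7) * lin η 1 x y) = (η ^ 7) * (lin η 0 x y * lin η 1 x y) by ring,
      div_unit (pow_ne_zero _ h0) rfl]
  have k5 : lin η 1 y x * lin η 7 y x = lin η 1 x y * lin η 7 x y := by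
    rw [e1, e7]
    linear_combination (lin η 1 x y * lin η 7 x y) * h8
  rcases a with _ | _ | _ <;> rcases b with _ | _ | _
  · change _ / _ = _ / _
    rw [key, k5]
  · exact k2
  · exact k1
  · exact k1
  · exact key.symm
  · exact k3
  · exact k2
  · exact k4
  · exact key.symm

lemma G_symm (hη : η ^ 4 = -1) (a b : SignType) (x y : ℂ) : G η a b x y = G η b a y x := by
  have e2 := lin_swap hη (j := 2) (k := 6) rfl x y
  have e3 := lin_swap hη (j := 3) (k := 5) rfl x y
  have e4 := lin_swap hη (j := 4) (k := 4) rfl x y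
  have e5 := lin_swap hη (j := 5) (k := 3) rfl x y
  have e6 := lin_swap hη (j := 6) (k := 2) rfl x y
  have h8 := eta8 hη
  have g1 : η ^ 7 * lin η 5 x y ^ 2 = η * lin η 3 y x ^ 2 := by
    rw [e3]; ring
  have g2 : η * lin η 3 x y ^ 2 = η ^ 7 * lin η 5 y x ^ 2 := by
    rw [e5]
    linear_combination (-(η * lin η 3 x y ^ 2)) * (η ^ 8 + 1) * h8
  rcases a with _ | _ | _ <;> rcases b with _ | _ | _
  · change lin η 4 x y ^ 2 = lin η 4 y x ^ 2
    rw [e4]
    linear_combination (- lin η 4 x y ^ 2) * h8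
  · exact g1
  · exact g2
  · exact g2
  · rfl
  · change η ^ 3 * (lin η 2 x y * lin η 3 x y) ^ 2 = η ^ 5 * (lin η 5 y x * lin η 6 y x) ^ 2
    rw [e5, e6]
    linear_combination (-(η ^ 3 * (lin η 2 x y * lin η 3 x y) ^ 2)) *
      (η ^ 16 + η ^ 8 + 1) * h8
  · exact g1
  · change η ^ 5 * (lin η 5 x y * lin η 6 x y) ^ 2 = η ^ 3 * (lin η 2 y x * lin η 3 y x) ^ 2
    rw [e2, e3]
    linear_combination (-(η ^ 5 * (lin η 5 x y * lin η 6 x y) ^ 2)) * h8
  · rfl

/-! ### symmetry of the charge sum -/

lemma tot_perm {e e' : List (ℂ × SignType)} (h : e.Perm e') : tot e = tot e' := by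
  unfold tot; exact (h.map _).sum_eq

lemma own_perm (hη : η ^ 4 = -1) {e e' : List (ℂ × SignType)} (h : e.Perm e') :
    own η σ e = own η σ e' := by
  induction h with
  | nil => rfl
  | cons p h ih =>
    simp only [own]
    rw [ih, (h.map _).prod_eq]
  | swap p q l =>
    simp only [own, List.map_cons, List.prod_cons]
    rw [F_symm hη q.2 p.2 q.1 p.1]
    ring
  | trans _ _ ih1 ih2 => exact ih1.trans ih2

lemma crs_perm_left {e e' : List (ℂ × SignType)} (h : e.Perm e') (f : List (ℂ × SignType)) :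
    crs η e f = crs η e' f := by
  unfold crs; exact (h.map _).prod_eq

lemma crs_cons_left (c : ℂ × SignType) (e f : List (ℂ × SignType)) :
    crs η (c :: e) f = (f.map (fun d => G η c.2 d.2 c.1 d.1)).prod * crs η e f := by
  simp [crs]

lemma crs_nil_left (f : List (ℂ × SignType)) : crs η [] f = 1 := by simp [crs]

lemma crs_symm (hη : η ^ 4 = -1) (e f : List (ℂ × SignType)) : crs η e f = crs η f e := by
  induction e with
  | nil =>
    induction f with
    | nil => rfl
    | cons d f ih => rw [crs_cons_left, ← ih]; simp [crs]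
  | cons c e ih =>
    rw [crs_cons_left, ih]
    clear ih
    induction f with
    | nil => simp [crs]
    | cons d f ih =>
      rw [crs_cons_left, crs_cons_left, ← ih]
      simp only [List.map_cons, List.prod_cons]
      rw [G_symm hη c.2 d.2 c.1 d.1]
      ring

lemma term_perm_left (hη : η ^ 4 = -1) {e e' : List (ℂ × SignType)} (h : e.Perm e')
    (f : List (ℂ × SignType)) : term η σ om e f = term η σ om e' f := by
  unfold term
  rw [tot_perm h, own_perm hη h, crs_perm_left h]

lemma term_symm (hη : η ^ 4 = -1) (e f : List (ℂ × SignType)) :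
    term η σ om e f = term η σ om f e := by
  unfold term
  by_cases h : tot e = tot f
  · rw [if_pos h, if_pos h.symm, h, crs_symm hη e f]; ring
  · rw [if_neg h, if_neg (fun h' => h h'.symm)]

lemma N_perm (hη : η ^ 4 = -1) {X X' : List ℂ} (Y : List ℂ) (h : X.Perm X') :
    N η σ om X Y = N η σ om X' Y := by
  unfold N
  refine sch_perm h fun e e' he => ?_
  exact sch_congr fun f _ => term_perm_left hη he f

lemma N_roles (hη : η ^ 4 = -1) (X Y : List ℂ) : N η σ om X Y = N η σ om Y X := by
  unfold N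
  rw [sch_comm]
  exact sch_congr fun f _ => sch_congr fun e _ => term_symm hη e f

lemma N_nil : N η σ om [] [] = 1 := by
  simp [N, sch, term, tot, own, crs]

/-! ### splitting off one line -/

/-- everything which depends on the line `(p, a)` -/
noncomputable def one (η σ : ℂ) (p : ℂ) (a : SignType) (e f : List (ℂ × SignType)) : ℂ :=
  wt σ a p * (e.map (fun d => F η a d.2 p d.1)).prod * (f.map (fun d => G η a d.2 p d.1)).prod

/-- everything which does not -/
noncomputable def rest (η σ om : ℂ) (k : ℤ) (e f : List (ℂ × SignType)) : ℂ :=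
  if k + tot e = tot f then om ^ (k + tot e) * own η σ e * own η σ f * crs η e f else 0

lemma rest_zero (e f : List (ℂ × SignType)) : rest η σ om 0 e f = term η σ om e f := by
  simp [rest, term]

lemma tot_cons (c : ℂ × SignType) (e : List (ℂ × SignType)) :
    tot (c :: e) = ((c.2 : SignType) : ℤ) + tot e := by simp [tot]

lemma rest_cons (k : ℤ) (p : ℂ) (a : SignType) (e f : List (ℂ × SignType)) :
    rest η σ om k ((p, a) :: e) f = one η σ p a e f * rest η σ om (k + (a : ℤ)) e f := by
  unfold rest one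
  rw [tot_cons, crs_cons_left]
  simp only [own, ← add_assoc]
  split_ifs
  · ring
  · ring

lemma N_eq (X Y : List ℂ) :
    N η σ om X Y = sch X (fun e => sch Y (fun f => rest η σ om 0 e f)) := by
  simp only [N, rest_zero]

lemma sum3 {M : Type*} [AddCommMonoid M] (φ : SignType → M) :
    ∑ a : SignType, φ a = φ .zero + (φ .neg + φ .pos) := by
  rw [show (Finset.univ : Finset SignType) = {.zero, .neg, .pos} from rfl]
  rw [Finset.sum_insert (by decide), Finset.sum_insert (by decide), Finset.sum_singleton]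

lemma N_cons (p : ℂ) (X Y : List ℂ) :
    N η σ om (p :: X) Y =
      ∑ a : SignType, sch X (fun e => sch Y (fun f => one η σ p a e f * rest η σ om (a : ℤ) e f)) := by
  rw [N_eq]
  simp only [sch, rest_cons, zero_add]

lemma one_cons_left (p : ℂ) (a : SignType) (c : ℂ × SignType) (e f : List (ℂ × SignType)) :
    one η σ p a (c :: e) f = F η a c.2 p c.1 * one η σ p a e f := by
  simp only [one, List.map_cons, List.prod_cons]; ring

lemma one_cons_right (p : ℂ) (a : SignType) (c : ℂ × SignType) (e f : List (ℂ × SignType)) :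
    one η σ p a e (c :: f) = G η a c.2 p c.1 * one η σ p a e f := by
  simp only [one, List.map_cons, List.prod_cons]; ring

/-- two lines of the same group split off -/
lemma N_cons2 (p q : ℂ) (X Y : List ℂ) :
    N η σ om (p :: q :: X) Y =
      ∑ a : SignType, ∑ b : SignType, F η a b p q * sch X (fun e => sch Y (fun f =>
        one η σ p a e f * one η σ q b e f * rest η σ om ((a : ℤ) + (b : ℤ)) e f)) := by
  rw [N_cons]
  refine Finset.sum_congr rfl fun a _ => ?_
  simp only [sch]
  refine Finset.sum_congr rfl fun b _ => ?_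
  rw [← sch_mul_left]
  refine sch_congr fun e _ => ?_
  rw [← sch_mul_left]
  refine sch_congr fun f _ => ?_
  rw [one_cons_left, rest_cons]
  ring

lemma crs_cons_right (hη : η ^ 4 = -1) (d : ℂ × SignType) (e f : List (ℂ × SignType)) :
    crs η e (d :: f) = (e.map (fun c => G η d.2 c.2 d.1 c.1)).prod * crs η e f := by
  rw [crs_symm hη, crs_cons_left, crs_symm hη f e]

lemma term_cons_cons (hη : η ^ 4 = -1) (hom : om ≠ 0) (p q : ℂ) (a b : SignType)
    (e f : List (ℂ × SignType)) :
    term η σ om ((p, a) :: e) ((q, b) :: f) = G η a b p q *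
      (one η σ p a e f * one η σ q b f e * rest η σ om ((a : ℤ) - (b : ℤ)) e f * om ^ (b : ℤ)) := by
  unfold term rest one
  rw [tot_cons, tot_cons, crs_cons_left, crs_cons_right hη]
  simp only [own, List.map_cons, List.prod_cons]
  by_cases h : (a : ℤ) + tot e = (b : ℤ) + tot f
  · rw [if_pos h, if_pos (by linarith)]
    have : om ^ ((a : ℤ) + tot e) = om ^ ((a : ℤ) - (b : ℤ) + tot e) * om ^ (b : ℤ) := by
      rw [← zpow_add₀ hom]; congr 1; ring
    rw [this]; ring
  · rw [if_neg h, if_neg (fun h' => h (by linarith))]; ring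

/-- one line of each group split off -/
lemma N_cons_cons (hη : η ^ 4 = -1) (hom : om ≠ 0) (p q : ℂ) (X Y : List ℂ) :
    N η σ om (p :: X) (q :: Y) =
      ∑ a : SignType, ∑ b : SignType, G η a b p q * sch X (fun e => sch Y (fun f =>
        one η σ p a e f * one η σ q b f e * rest η σ om ((a : ℤ) - (b : ℤ)) e f * om ^ (b : ℤ))) := by
  unfold N
  simp only [sch]
  refine Finset.sum_congr rfl fun a _ => ?_
  rw [sch_sum]
  refine Finset.sum_congr rfl fun b _ => ?_
  rw [← sch_mul_left]
  refine sch_congr fun e _ => ?_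
  rw [← sch_mul_left]
  exact sch_congr fun f _ => term_cons_cons hη hom p q a b e f

/-- powers of a charge-dependent phase -/
lemma prod_zpow_tot {u : ℂ} (hu : u ≠ 0) (e : List (ℂ × SignType)) :
    (e.map (fun d => u ^ ((d.2 : SignType) : ℤ))).prod = u ^ tot e := by
  induction e with
  | nil => simp [tot]
  | cons c e ih => rw [List.map_cons, List.prod_cons, ih, tot_cons, zpow_add₀ hu]

end NUGas
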