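import Pool.Agent.NUF.Gas.Base

/-!
Fusion of two lines `η ^ 2 * t`, `t` of the same group into one line `η * t`.
-/

open Polynomial Filter Topology

namespace NUGas

variable {η σ om : ℂ}

namespace Fuse

lemma s1 (k : ℕ) (t y : ℂ) : lin η k (η * t) y = lin η (k + 1) t y := by
  unfold lin; ring

lemma s2 (k : ℕ) (t y : ℂ) : lin η k (η ^ 2 * t) y = lin η (k + 2) t y := by
  unfold lin; ring

lemma l8 (hη : η ^ 4 = -1) (t y : ℂ) : lin η 8 t y = lin η 0 t y := lin_add8 hη 0 t y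

lemma l9 (hη : η ^ 4 = -1) (t y : ℂ) : lin η 9 t y = lin η 1 t y := lin_add8 hη 1 t y

lemma kk (hη : η ^ 4 = -1) (t y : ℂ) : (y + η * t) ^ 2 = lin η 5 t y ^ 2 := by
  unfold lin
  linear_combination (-(η * t) * (η ^ 5 * t - η * t - 2 * y)) * hη

lemma inv_eta (hη : η ^ 4 = -1) : η⁻¹ = η ^ 7 := by
  have h0 := eta_ne hη
  have h8 := eta8 hη
  field_simp
  linear_combination -h8

lemma cz (u : ℂ) : u ^ ((SignType.zero : SignType) : ℤ) = 1 := zpow_zero u
lemma cp (u : ℂ) : u ^ ((SignType.pos : SignType) : ℤ) = u := zpow_one u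
lemma cn (u : ℂ) : u ^ ((SignType.neg : SignType) : ℤ) = u⁻¹ := zpow_neg_one u

lemma FF (hη : η ^ 4 = -1) {t y : ℂ} (h : Sep η t y) (c : SignType) :
    (F η .neg c (η ^ 2 * t) y * F η .zero c t y =
      (η⁻¹) ^ (c : ℤ) * ((y + η * t) ^ 2 * F η .neg c (η * t) y)) ∧
    (F η .zero c (η ^ 2 * t) y * F η .pos c t y =
      (η⁻¹) ^ (c : ℤ) * ((y + η * t) ^ 2 * F η .pos c (η * t) y)) ∧
    (F η .neg c (η ^ 2 * t) y * F η .pos c t y =
      ((η ^ 2)⁻¹) ^ (c : ℤ) * ((y + η * t) ^ 2 * F η .zero c (η * t) y)) := by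
  have h0 := eta_ne hη
  have h8 := eta8 hη
  have n0 : lin η 0 t y ≠ 0 := sub_ne_zero.mpr (h 0)
  have n1 : lin η 1 t y ≠ 0 := sub_ne_zero.mpr (h 1)
  have n2 : lin η 2 t y ≠ 0 := sub_ne_zero.mpr (h 2)
  have n3 : lin η 3 t y ≠ 0 := sub_ne_zero.mpr (h 3)
  have n4 : lin η 4 t y ≠ 0 := sub_ne_zero.mpr (h 4)
  have n5 : lin η 5 t y ≠ 0 := sub_ne_zero.mpr (h 5)
  have n6 : lin η 6 t y ≠ 0 := sub_ne_zero.mpr (h 6)
  have n7 : lin η 7 t y ≠ 0 := sub_ne_zero.mpr (h 7)
  rw [kk hη]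
  rcases c with _ | _ | _
  · simp only [cz, F, s1, s2, Nat.reduceAdd, l8 hη, l9 hη]
    refine ⟨?_, ?_, ?_⟩
    · field_simp
    · field_simp
    · field_simp
      linear_combination h8
  · simp only [cn, F, s1, s2, Nat.reduceAdd, l8 hη, inv_inv]
    refine ⟨?_, ?_, ?_⟩
    · field_simp
    · field_simp
    · field_simp
  · simp only [cp, F, s1, s2, Nat.reduceAdd, l8 hη, l9 hη]
    refine ⟨?_, ?_, ?_⟩
    · field_simp
      linear_combination h8
    · field_simp
      linear_combination h8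
    · field_simp

lemma GG (hη : η ^ 4 = -1) (t y : ℂ) (c : SignType) :
    (G η .neg c (η ^ 2 * t) y * G η .zero c t y =
      η ^ (c : ℤ) * ((y + η * t) ^ 2 * G η .neg c (η * t) y)) ∧
    (G η .zero c (η ^ 2 * t) y * G η .pos c t y =
      η ^ (c : ℤ) * ((y + η * t) ^ 2 * G η .pos c (η * t) y)) ∧
    (G η .neg c (η ^ 2 * t) y * G η .pos c t y =
      (η ^ 2) ^ (c : ℤ) * ((y + η * t) ^ 2 * G η .zero c (η * t) y)) := by
  have h0 := eta_ne hη
  have h8 := eta8 hη
  rw [kk hη]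
  rcases c with _ | _ | _
  · simp only [cz, G, s1, s2, Nat.reduceAdd]
    refine ⟨?_, ?_, ?_⟩
    · field_simp
    · field_simp
    · field_simp
      rw [h8, one_mul]
  · simp only [cn, G, s1, s2, Nat.reduceAdd]
    refine ⟨?_, ?_, ?_⟩
    · field_simp
      rw [h8, one_mul]
    · field_simp
      rw [h8, one_mul]
    · field_simp
  · simp only [cp, G, s1, s2, Nat.reduceAdd]
    refine ⟨?_, ?_, ?_⟩
    · field_simp
    · field_simp
    · field_simp

lemma prod_line {P Q R : SignType → ℂ → ℂ} {u : ℂ} (hu : u ≠ 0) (K : ℂ → ℂ) {X : List ℂ}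
    (h : ∀ x ∈ X, ∀ d, P d x * Q d x = u ^ (d : ℤ) * (K x * R d x))
    {e : List (ℂ × SignType)} (he : e.map Prod.fst = X) :
    (e.map (fun d => P d.2 d.1)).prod * (e.map (fun d => Q d.2 d.1)).prod =
      u ^ tot e * ((X.map K).prod * (e.map (fun d => R d.2 d.1)).prod) := by
  induction e generalizing X with
  | nil => subst he; simp [tot]
  | cons c e ih =>
    subst he
    have h1 := ih (X := e.map Prod.fst)
      (fun x hx d => h x (by rw [List.map_cons]; exact List.mem_cons_of_mem _ hx) d) rfl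
    have h2 := h c.1 (by simp) c.2
    simp only [List.map_cons, List.prod_cons, tot_cons, zpow_add₀ hu]
    calc _ = (P c.2 c.1 * Q c.2 c.1) * ((e.map (fun d => P d.2 d.1)).prod *
          (e.map (fun d => Q d.2 d.1)).prod) := by ring
      _ = _ := by rw [h1, h2]; ring

/-- one fusion channel: charges `a`, `b` of the two lines, charge `c` of the fused line -/
lemma channel {a b c : SignType} {u v w p q r S k : ℂ} {KF : ℂ → ℂ} {X Y : List ℂ}
    (hu : u ≠ 0) (hv : v ≠ 0)
    (hF : ∀ x ∈ X, ∀ d, F η a d p x * F η b d q x = u ^ (d : ℤ) * (KF x * F η c d r x))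
    (hG : ∀ y ∈ Y, ∀ d, G η a d p y * G η b d q y = v ^ (d : ℤ) * (KF y * G η c d r y))
    (hk : (a : ℤ) + (b : ℤ) = (c : ℤ))
    (hw : ∀ m n : ℤ, (c : ℤ) + m = n → u ^ m * v ^ n = w)
    (hS : S * w * (wt σ a p * wt σ b q) = k * wt σ c r) :
    S * sch X (fun e => sch Y (fun f =>
        one η σ p a e f * one η σ q b e f * rest η σ om ((a : ℤ) + (b : ℤ)) e f)) =
      k * ((X.map KF).prod * (Y.map KF).prod) *
        sch X (fun e => sch Y (fun f => one η σ r c e f * rest η σ om (c : ℤ) e f)) := by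
  rw [← sch_mul_left, ← sch_mul_left]
  refine sch_congr fun e he => ?_
  rw [← sch_mul_left, ← sch_mul_left]
  refine sch_congr fun f hf => ?_
  rw [hk]
  have h1 := prod_line (P := fun d x => F η a d p x) (Q := fun d x => F η b d q x)
    (R := fun d x => F η c d r x) hu KF hF he
  have h2 := prod_line (P := fun d x => G η a d p x) (Q := fun d x => G η b d q x)
    (R := fun d x => G η c d r x) hv KF hG hf
  by_cases hn : (c : ℤ) + tot e = tot f
  · have h3 := hw _ _ hn
    unfold one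
    calc _ = S * (wt σ a p * wt σ b q) *
          ((e.map (fun d => F η a d.2 p d.1)).prod * (e.map (fun d => F η b d.2 q d.1)).prod) *
          ((f.map (fun d => G η a d.2 p d.1)).prod * (f.map (fun d => G η b d.2 q d.1)).prod) *
          rest η σ om (c : ℤ) e f := by ring
      _ = (S * (u ^ tot e * v ^ tot f) * (wt σ a p * wt σ b q)) *
          ((X.map KF).prod * (Y.map KF).prod) * ((e.map (fun d => F η c d.2 r d.1)).prod *
          (f.map (fun d => G η c d.2 r d.1)).prod) * rest η σ om (c : ℤ) e f := by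
          rw [h1, h2]; ring
      _ = _ := by rw [h3, hS]; ring
  · have : rest η σ om (c : ℤ) e f = 0 := by unfold rest; rw [if_neg hn]
    rw [this]; ring

end Fuse

open Fuse in
theorem N_fuse (hη : η ^ 4 = -1) (hσ : σ ^ 2 = 2 - η + η ^ 3) (t : ℂ) (X Y : List ℂ)
    (hX : Gen η (t :: X)) :
    N η σ om (η ^ 2 * t :: t :: X) Y = 2 * (η * t) ^ 2 *
      ((X.map (fun x => (x + η * t) ^ 2)).prod * (Y.map (fun x => (x + η * t) ^ 2)).prod) *
      N η σ om (η * t :: X) Y := by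
  have h0 := eta_ne hη
  have h8 := eta8 hη
  have hi := inv_eta hη
  have ht : t ≠ 0 := hX.1 t (by simp)
  have hsep : ∀ x ∈ X, Sep η t x := (List.pairwise_cons.1 hX.2).1
  -- the linear forms of the pair itself
  have hl : ∀ k, lin η k (η ^ 2 * t) t = (η ^ (k + 2) - 1) * t := fun k => by unfold lin; ring
  have e1 : η - 1 ≠ 0 := by
    intro h
    have : η = 1 := by linear_combination h
    rw [this] at hη; norm_num at hη
  have e2 : η ^ 2 - 1 ≠ 0 := by
    intro h
    have : η ^ 4 = 1 := by linear_combination (η ^ 2 + 1) * h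
    rw [this] at hη; norm_num at hη
  have e3 : η ^ 3 - 1 ≠ 0 := by
    intro h
    have h3 : η ^ 3 = 1 := by linear_combination h
    have : η = -1 := by linear_combination hη - η * h3
    rw [this] at hη; norm_num at hη
  have z6 : lin η 6 (η ^ 2 * t) t = 0 := by rw [hl, show 6 + 2 = 8 from rfl, h8]; ring
  have f00 : F η .zero .zero (η ^ 2 * t) t = 0 := by simp only [F, z6]; ring
  have f0n : F η .zero .neg (η ^ 2 * t) t = 0 := by simp only [F, z6]; ring
  have fnn : F η .neg .neg (η ^ 2 * t) t = 0 := by simp only [F, z6]; ring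
  have fp0 : F η .pos .zero (η ^ 2 * t) t = 0 := by simp only [F, z6]; ring
  have fpn : F η .pos .neg (η ^ 2 * t) t = 0 := by simp only [F, z6]; ring
  have fpp : F η .pos .pos (η ^ 2 * t) t = 0 := by simp only [F, z6]; ring
  -- the three channels
  have c1 := channel (η := η) (σ := σ) (om := om) (a := .neg) (b := .zero) (c := .neg) (u := η⁻¹)
    (v := η) (w := η⁻¹) (p := η ^ 2 * t) (q := t) (r := η * t)
    (S := F η .neg .zero (η ^ 2 * t) t) (k := 2 * (η * t) ^ 2) (KF := fun x => (x + η * t) ^ 2)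
    (X := X) (Y := Y) (inv_ne_zero h0) h0 (fun x hx d => (FF hη (hsep x hx) d).1)
    (fun y _ d => (GG hη t y d).1) rfl
    (fun m n h => by
      rw [← h, zpow_add₀ h0, inv_zpow']
      rw [cn, mul_comm, mul_assoc, ← zpow_add₀ h0]; simp)
    (by
      simp only [F, wt, hl, Nat.reduceAdd]
      field_simp
      linear_combination σ * (2 - 2 * η ^ 2 - 2 * η ^ 4 - η ^ 5 + 2 * η ^ 6 + 2 * η ^ 8 + 2 * η ^ 9
        - η ^ 10 - η ^ 12 - 2 * η ^ 13 + η ^ 17) * hη)
  have c2 := channel (η := η) (σ := σ) (om := om) (a := .zero) (b := .pos) (c := .pos) (u := η⁻¹)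
    (v := η) (w := η) (p := η ^ 2 * t) (q := t) (r := η * t)
    (S := F η .zero .pos (η ^ 2 * t) t) (k := 2 * (η * t) ^ 2) (KF := fun x => (x + η * t) ^ 2)
    (X := X) (Y := Y) (inv_ne_zero h0) h0 (fun x hx d => (FF hη (hsep x hx) d).2.1)
    (fun y _ d => (GG hη t y d).2.1) rfl
    (fun m n h => by
      rw [← h, zpow_add₀ h0, inv_zpow']
      rw [cp, mul_comm, mul_assoc, ← zpow_add₀ h0]; simp)
    (by
      simp only [F, wt, hl, Nat.reduceAdd]
      field_simp
      linear_combination σ * (2 - 2 * η ^ 2 - 2 * η ^ 4 - η ^ 5 + 2 * η ^ 6 + 2 * η ^ 8 + 2 * η ^ 9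
        - η ^ 10 - η ^ 12 - 2 * η ^ 13 + η ^ 17) * hη)
  have c3 := channel (η := η) (σ := σ) (om := om) (a := .neg) (b := .pos) (c := .zero)
    (u := (η ^ 2)⁻¹)
    (v := η ^ 2) (w := 1) (p := η ^ 2 * t) (q := t) (r := η * t)
    (S := F η .neg .pos (η ^ 2 * t) t) (k := 2 * (η * t) ^ 2) (KF := fun x => (x + η * t) ^ 2)
    (X := X) (Y := Y) (inv_ne_zero (pow_ne_zero _ h0)) (pow_ne_zero _ h0)
    (fun x hx d => (FF hη (hsep x hx) d).2.2)
    (fun y _ d => (GG hη t y d).2.2) rfl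
    (fun m n h => by
      have : m = n := by rw [← h]; simp [SignType.cast]
      rw [this, inv_zpow', ← zpow_add₀ (pow_ne_zero _ h0)]; simp)
    (by
      have e9 : η ^ 9 - 1 = η - 1 := by linear_combination η * h8
      simp only [F, wt, hl, Nat.reduceAdd]
      field_simp
      rw [e9, hσ]
      field_simp
      linear_combination (-2 + 2 * η + 2 * η ^ 2 - 2 * η ^ 3 + 2 * η ^ 4 - 3 * η ^ 6 + 2 * η ^ 7
        - η ^ 8 - 2 * η ^ 9 + 2 * η ^ 10 - η ^ 11 + η ^ 13) * hη)
  rw [N_cons2, N_cons]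
  simp only [sum3]
  rw [f00, f0n, fnn, fp0, fpn, fpp, c1, c2, c3]
  ring

end NUGas
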