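import Pool.Agent.NUF.Gas.Base

/-!
# The charge sum is a polynomial in every line: pole cancellation, degree, extreme coefficients
-/

open Polynomial Filter Topology

namespace NUGas

variable {η σ om : ℂ}

/-! ### simple roots -/

lemma list_dvd {L : List ℂ} (hL : L.Nodup) {d : ℂ[X]} (hd : ∀ t ∈ L, d.eval t = 0) :
    (L.map (fun a => Polynomial.X - C a)).prod ∣ d := by
  rcases eq_or_ne d 0 with rfl | hd0
  · exact dvd_zero _
  · have hn : (L : Multiset ℂ) ≤ d.roots := by
      rw [Multiset.le_iff_subset (by simpa using hL)]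
      intro t ht
      rw [Polynomial.mem_roots hd0]
      exact hd t (by simpa using ht)
    have := (Multiset.prod_X_sub_C_dvd_iff_le_roots hd0 (L : Multiset ℂ)).2 hn
    simpa using this

/-- possible poles -/
def bad (η : ℂ) : List ℂ → List ℂ
  | [] => []
  | x :: X => x :: (η ^ 7 * x) :: (η ^ 1 * x) :: bad η X

lemma length_bad (X : List ℂ) : (bad η X).length = 3 * X.length := by
  induction X with
  | nil => rfl
  | cons x X ih => simp [bad, ih]; ring

lemma mem_bad {X : List ℂ} {t : ℂ} (h : t ∈ bad η X) :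
    ∃ x ∈ X, t = x ∨ t = η ^ 7 * x ∨ t = η ^ 1 * x := by
  induction X with
  | nil => simp [bad] at h
  | cons x X ih =>
    simp only [bad, List.mem_cons] at h
    rcases h with h | h | h | h
    · exact ⟨x, List.mem_cons_self, Or.inl h⟩
    · exact ⟨x, List.mem_cons_self, Or.inr (Or.inl h)⟩
    · exact ⟨x, List.mem_cons_self, Or.inr (Or.inr h)⟩
    · obtain ⟨y, hy, h⟩ := ih h
      exact ⟨y, List.mem_cons_of_mem _ hy, h⟩

lemma not_mem_bad (hη : η ^ 4 = -1) {x : ℂ} {X : List ℂ} (h : Gen η (x :: X)) (k : ℕ) :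
    η ^ k * x ∉ bad η X := by
  intro hm
  obtain ⟨y, hy, h0⟩ := mem_bad hm
  rcases h0 with h0 | h0 | h0
  · exact (h.sep hy) k h0
  · exact ((h.sep hy).mul_right hη 7) k h0
  · exact ((h.sep hy).mul_right hη 1) k h0

lemma nodup_bad (hη : η ^ 4 = -1) {X : List ℂ} (h : Gen η X) : (bad η X).Nodup := by
  induction X with
  | nil => simp [bad]
  | cons x X ih =>
    have hx := h.head
    have h01 := pow_mul_inj hη hx (j := 0) (k := 1) (by norm_num) (by norm_num)
    have h07 := pow_mul_inj hη hx (j := 0) (k := 7) (by norm_num) (by norm_num)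
    have h17 := pow_mul_inj hη hx (j := 1) (k := 7) (by norm_num) (by norm_num)
    have n0 := not_mem_bad hη h 0
    rw [pow_zero, one_mul] at h01 h07 n0
    simp only [bad, List.nodup_cons, List.mem_cons, not_or]
    exact ⟨⟨h07, h01, n0⟩, ⟨h17.symm, not_mem_bad hη h 7⟩, not_mem_bad hη h 1, ih h.tail⟩

/-- denominator polynomial -/
noncomputable def DP (η : ℂ) (X : List ℂ) : ℂ[X] :=
  ((bad η X).map (fun a => Polynomial.X - C a)).prod

lemma DP_monic (X : List ℂ) : (DP η X).Monic :=
  monic_list_prod' _ (by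
    intro p hp
    rw [List.mem_map] at hp
    obtain ⟨a, _, rfl⟩ := hp
    exact monic_X_sub_C a)

lemma natDegree_prod_X_sub_C' (L : List ℂ) :
    ((L.map (fun a => Polynomial.X - C a)).prod : ℂ[X]).natDegree = L.length := by
  induction L with
  | nil => simp
  | cons a L ih =>
    rw [List.map_cons, List.prod_cons, Monic.natDegree_mul (monic_X_sub_C a)
      (monic_list_prod' _ (by
        intro p hp
        rw [List.mem_map] at hp
        obtain ⟨a, _, rfl⟩ := hp
        exact monic_X_sub_C a)), ih, natDegree_X_sub_C]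
    simp; ring

lemma DP_natDegree (X : List ℂ) : (DP η X).natDegree = 3 * X.length := by
  unfold DP; rw [natDegree_prod_X_sub_C', length_bad]

/-- the three denominators -/
noncomputable def den (η t x : ℂ) : ℂ := lin η 0 t x * lin η 1 t x * lin η 7 t x

lemma DP_nil : DP η [] = 1 := by simp [DP, bad]

lemma DP_eval_cons (hη : η ^ 4 = -1) (t x : ℂ) (X : List ℂ) :
    (DP η (x :: X)).eval t = den η t x * (DP η X).eval t := by
  unfold DP den
  simp only [bad, List.map_cons, List.prod_cons, eval_mul, eval_sub, eval_X, eval_C]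
  have h8 := eta8 hη
  have e1 : lin η 1 t x = η * (t - η ^ 7 * x) := by
    unfold lin; linear_combination (x) * h8
  have e7 : lin η 7 t x = η ^ 7 * (t - η ^ 1 * x) := by
    unfold lin; linear_combination (x) * h8
  have e0 : lin η 0 t x = t - x := by unfold lin; ring
  rw [e0, e1, e7]
  have : η * η ^ 7 = 1 := by rw [← h8]; ring
  linear_combination (-((t - x) * (t - η ^ 7 * x) * (t - η ^ 1 * x) *
    eval t (List.map (fun a => Polynomial.X - C a) (bad η X)).prod)) * this

lemma lin_ne_of_good {t x : ℂ} (hη : η ^ 4 = -1) (h : t ≠ x ∧ η * t ≠ x ∧ t ≠ η * x) :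
    lin η 0 t x ≠ 0 ∧ lin η 1 t x ≠ 0 ∧ lin η 7 t x ≠ 0 := by
  refine ⟨?_, ?_, ?_⟩
  · unfold lin; rw [pow_zero, one_mul]; exact sub_ne_zero.2 h.1
  · unfold lin; rw [pow_one]; exact sub_ne_zero.2 h.2.1
  · unfold lin; rw [sub_ne_zero]
    intro h7
    apply h.2.2
    rw [← h7, ← mul_assoc, ← pow_succ', eta8 hη, one_mul]

lemma den_ne {t x : ℂ} (hη : η ^ 4 = -1) (h : t ≠ x ∧ η * t ≠ x ∧ t ≠ η * x) :
    den η t x ≠ 0 := by
  obtain ⟨h0, h1, h7⟩ := lin_ne_of_good hη h
  exact mul_ne_zero (mul_ne_zero h0 h1) h7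

lemma DP_eval_ne (hη : η ^ 4 = -1) {t : ℂ} {X : List ℂ} (h : Good η t X) :
    (DP η X).eval t ≠ 0 := by
  induction X with
  | nil => simp [DP_nil]
  | cons x X ih =>
    rw [DP_eval_cons hη]
    exact mul_ne_zero (den_ne hη (h x List.mem_cons_self))
      (ih fun y hy => h y (List.mem_cons_of_mem _ hy))

/-! ### polynomial versions of the pair functions -/

/-- linear polynomial -/
noncomputable def LP (η : ℂ) (k : ℕ) (x : ℂ) : ℂ[X] := C (η ^ k) * Polynomial.X - C x

@[simp] lemma LP_eval (k : ℕ) (x t : ℂ) : (LP η k x).eval t = lin η k t x := by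
  simp [LP, lin]

/-- `F` times the denominators -/
noncomputable def FP (η : ℂ) : SignType → SignType → ℂ → ℂ[X]
  | .pos, .pos, x => LP η 0 x * LP η 1 x * LP η 7 x * (LP η 2 x * LP η 3 x * LP η 5 x * LP η 6 x)
  | .neg, .neg, x => LP η 0 x * LP η 1 x * LP η 7 x * (LP η 2 x * LP η 3 x * LP η 5 x * LP η 6 x)
  | .zero, .zero, x => LP η 0 x * (LP η 2 x * LP η 3 x * LP η 5 x * LP η 6 x)
  | .zero, .pos, x => C (η ^ 7) * (LP η 1 x * LP η 7 x * (LP η 2 x * LP η 3 x * LP η 5 x))
  | .neg, .zero, x => C (η ^ 7) * (LP η 1 x * LP η 7 x * (LP η 2 x * LP η 3 x * LP η 5 x))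
  | .pos, .zero, x => C η * (LP η 1 x * LP η 7 x * (LP η 3 x * LP η 5 x * LP η 6 x))
  | .zero, .neg, x => C η * (LP η 1 x * LP η 7 x * (LP η 3 x * LP η 5 x * LP η 6 x))
  | .neg, .pos, x => C (η ^ 5) * (LP η 1 x * (LP η 2 x * LP η 3 x))
  | .pos, .neg, x => C (η ^ 3) * (LP η 7 x * (LP η 5 x * LP η 6 x))

/-- polynomial version of `G` -/
noncomputable def GP (η : ℂ) : SignType → SignType → ℂ → ℂ[X]
  | .pos, .pos, _ => 1
  | .neg, .neg, _ => 1
  | .zero, .zero, x => LP η 4 x ^ 2
  | .zero, .pos, x => C η * LP η 3 x ^ 2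
  | .neg, .zero, x => C η * LP η 3 x ^ 2
  | .pos, .zero, x => C (η ^ 7) * LP η 5 x ^ 2
  | .zero, .neg, x => C (η ^ 7) * LP η 5 x ^ 2
  | .neg, .pos, x => C (η ^ 3) * (LP η 2 x * LP η 3 x) ^ 2
  | .pos, .neg, x => C (η ^ 5) * (LP η 5 x * LP η 6 x) ^ 2

/-- polynomial version of the weight -/
noncomputable def WP (σ : ℂ) : SignType → ℂ[X]
  | .zero => 1
  | .pos => C σ * Polynomial.X
  | .neg => C σ * Polynomial.X

lemma FP_eval {t x : ℂ} (hη : η ^ 4 = -1) (h : t ≠ x ∧ η * t ≠ x ∧ t ≠ η * x)
    (a b : SignType) : (FP η a b x).eval t = den η t x * F η a b t x := by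
  obtain ⟨h0, h1, h7⟩ := lin_ne_of_good hη h
  rcases a with _ | _ | _ <;> rcases b with _ | _ | _ <;>
    simp only [FP, F, den, eval_mul, eval_C, LP_eval] <;> field_simp

lemma GP_eval (t x : ℂ) (a b : SignType) : (GP η a b x).eval t = G η a b t x := by
  rcases a with _ | _ | _ <;> rcases b with _ | _ | _ <;>
    simp [GP, G]

lemma WP_eval (t : ℂ) (a : SignType) : (WP σ a).eval t = wt σ a t := by
  rcases a with _ | _ | _ <;> simp [WP, wt]

/-- polynomial version of `one` -/
noncomputable def oneP (η σ : ℂ) (a : SignType) (e f : List (ℂ × SignType)) : ℂ[X] :=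
  WP σ a * (e.map (fun d => FP η a d.2 d.1)).prod * (f.map (fun d => GP η a d.2 d.1)).prod

lemma oneP_eval (hη : η ^ 4 = -1) {t : ℂ} (a : SignType) {e : List (ℂ × SignType)}
    (f : List (ℂ × SignType)) (h : Good η t (e.map Prod.fst)) :
    (oneP η σ a e f).eval t = (DP η (e.map Prod.fst)).eval t * one η σ t a e f := by
  unfold oneP one
  rw [eval_mul, eval_mul, WP_eval]
  have hG : ((f.map (fun d => GP η a d.2 d.1)).prod).eval t =
      (f.map (fun d => G η a d.2 t d.1)).prod := by
    clear h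
    induction f with
    | nil => simp
    | cons d f ih => simp only [List.map_cons, List.prod_cons, eval_mul, ih, GP_eval]
  have hF : ((e.map (fun d => FP η a d.2 d.1)).prod).eval t =
      (DP η (e.map Prod.fst)).eval t * (e.map (fun d => F η a d.2 t d.1)).prod := by
    clear hG
    induction e with
    | nil => simp [DP_nil]
    | cons d e ih =>
      simp only [List.map_cons, List.prod_cons, eval_mul]
      rw [ih (fun y hy => h y (by simp only [List.map_cons]; exact List.mem_cons_of_mem _ hy)),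
        FP_eval hη (h d.1 (by simp)), DP_eval_cons hη]
      ring
  rw [hG, hF]; ring

/-- numerator polynomial -/
noncomputable def RP (η σ om : ℂ) (X Y : List ℂ) : ℂ[X] :=
  ∑ a : SignType, sch X (fun e => sch Y (fun f => oneP η σ a e f * C (rest η σ om (a : ℤ) e f)))

lemma sch_eval (X : List ℂ) (t : ℂ) (φ : List (ℂ × SignType) → ℂ[X]) :
    (sch X φ).eval t = sch X (fun e => (φ e).eval t) :=
  map_sch (Polynomial.evalRingHom t).toAddMonoidHom X φ

lemma RP_eval (X Y : List ℂ) (t : ℂ) : (RP η σ om X Y).eval t =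
    ∑ a : SignType, sch X (fun e => sch Y (fun f =>
      (oneP η σ a e f).eval t * rest η σ om (a : ℤ) e f)) := by
  unfold RP
  rw [eval_finsetSum]
  refine Finset.sum_congr rfl fun a _ => ?_
  rw [sch_eval]
  refine sch_congr fun e _ => ?_
  rw [sch_eval]
  exact sch_congr fun f _ => by simp

lemma RP_eval_good (hη : η ^ 4 = -1) {t : ℂ} {X : List ℂ} (Y : List ℂ) (h : Good η t X) :
    (RP η σ om X Y).eval t = (DP η X).eval t * N η σ om (t :: X) Y := by
  rw [RP_eval, N_cons, Finset.mul_sum]
  refine Finset.sum_congr rfl fun a _ => ?_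
  rw [← sch_mul_left]
  refine sch_congr fun e he => ?_
  rw [← sch_mul_left]
  refine sch_congr fun f _ => ?_
  rw [oneP_eval hη a f (he ▸ h), he]
  ring

lemma rest_perm (hη : η ^ 4 = -1) (k : ℤ) {e e' : List (ℂ × SignType)} (h : e.Perm e')
    (f : List (ℂ × SignType)) : rest η σ om k e f = rest η σ om k e' f := by
  unfold rest
  rw [tot_perm h, own_perm hη h, crs_perm_left h]

lemma RP_perm (hη : η ^ 4 = -1) {X X' : List ℂ} (Y : List ℂ) (h : X.Perm X') :
    RP η σ om X Y = RP η σ om X' Y := by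
  unfold RP
  refine Finset.sum_congr rfl fun a _ => sch_perm h fun e e' he => sch_congr fun f _ => ?_
  rw [rest_perm hη _ he]
  unfold oneP
  rw [(he.map _).prod_eq]

/-- the sum which multiplies `FP a b` when `x` is split off -/
noncomputable def SS (η σ om r x : ℂ) (X Y : List ℂ) (a b : SignType) : ℂ :=
  sch X (fun e => sch Y (fun f =>
    one η σ r a e f * one η σ x b e f * rest η σ om ((a : ℤ) + (b : ℤ)) e f))

lemma RP_eval_cons (hη : η ^ 4 = -1) {r x : ℂ} {X : List ℂ} (Y : List ℂ) (h : Good η r X) :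
    (RP η σ om (x :: X) Y).eval r = (DP η X).eval r *
      ∑ a : SignType, ∑ b : SignType, (FP η a b x).eval r * SS η σ om r x X Y a b := by
  rw [RP_eval, Finset.mul_sum]
  refine Finset.sum_congr rfl fun a _ => ?_
  simp only [sch]
  rw [Finset.mul_sum]
  refine Finset.sum_congr rfl fun b _ => ?_
  unfold SS
  rw [← sch_mul_left, ← sch_mul_left]
  refine sch_congr fun e he => ?_
  rw [← sch_mul_left, ← sch_mul_left]
  refine sch_congr fun f _ => ?_
  have : (oneP η σ a ((x, b) :: e) f).eval r = (FP η a b x).eval r * (oneP η σ a e f).eval r := by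
    unfold oneP
    simp only [List.map_cons, List.prod_cons, eval_mul]; ring
  rw [this, oneP_eval hη a f (he ▸ h), he, rest_cons]
  ring

lemma SS_symm (x : ℂ) (X Y : List ℂ) (a b : SignType) :
    SS η σ om x x X Y a b = SS η σ om x x X Y b a := by
  unfold SS
  refine sch_congr fun e _ => sch_congr fun f _ => ?_
  rw [mul_comm (one η σ x a e f), add_comm (a : ℤ)]

/-! ### the numerator vanishes at the possible poles -/

lemma lin_self (x : ℂ) :
    lin η 0 x x = 0 := by unfold lin; ring

lemma FP_anti (hη : η ^ 4 = -1) (x : ℂ) (a b : SignType) :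
    (FP η a b x).eval x = -(FP η b a x).eval x := by
  have h0 := lin_self (η := η) x
  have h8 := eta8 hη
  have k1 : η ^ 7 * lin η 2 x x = - (η * lin η 6 x x) := by
    unfold lin; linear_combination (x * η) * h8
  have k2 : η ^ 5 * (lin η 1 x x * (lin η 2 x x * lin η 3 x x)) =
      -(η ^ 3 * (lin η 7 x x * (lin η 5 x x * lin η 6 x x))) := by
    have e7 : lin η 7 x x = -(η ^ 7) * lin η 1 x x := by
      unfold lin; linear_combination x * h8
    have e6 : lin η 6 x x = -(η ^ 6) * lin η 2 x x := by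
      unfold lin; linear_combination x * h8
    have e5 : lin η 5 x x = -(η ^ 5) * lin η 3 x x := by
      unfold lin; linear_combination x * h8
    rw [e5, e6, e7]
    linear_combination (-(η ^ 5 * (lin η 1 x x * (lin η 2 x x * lin η 3 x x)))) * (η ^ 8 + 1) * h8
  rcases a with _ | _ | _ <;> rcases b with _ | _ | _ <;>
    simp only [FP, eval_mul, eval_C, LP_eval, h0, zero_mul, neg_zero]
  · linear_combination (lin η 1 x x * lin η 7 x x * (lin η 3 x x * lin η 5 x x)) * k1
  · linear_combination (lin η 1 x x * lin η 7 x x * (lin η 3 x x * lin η 5 x x)) * k1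
  · linear_combination (lin η 1 x x * lin η 7 x x * (lin η 3 x x * lin η 5 x x)) * k1
  · exact k2
  · linear_combination (lin η 1 x x * lin η 7 x x * (lin η 3 x x * lin η 5 x x)) * k1
  · linear_combination k2

lemma root0 (hη : η ^ 4 = -1) {x : ℂ} {X : List ℂ} (Y : List ℂ) (h : Gen η (x :: X)) :
    (RP η σ om (x :: X) Y).eval x = 0 := by
  rw [RP_eval_cons hη Y (h.good hη)]
  have key : ∑ a : SignType, ∑ b : SignType, (FP η a b x).eval x * SS η σ om x x X Y a b = 0 := by
    set S := ∑ a : SignType, ∑ b : SignType, (FP η a b x).eval x * SS η σ om x x X Y a b with hS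
    have : S = -S := by
      conv_rhs => rw [hS, Finset.sum_comm]
      rw [hS, ← Finset.sum_neg_distrib]
      refine Finset.sum_congr rfl fun a _ => ?_
      rw [← Finset.sum_neg_distrib]
      refine Finset.sum_congr rfl fun b _ => ?_
      rw [FP_anti hη x a b, SS_symm x X Y a b]
      ring
    linear_combination (1 / 2 : ℂ) * this
  rw [key, mul_zero]

end NUGas
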