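import Pool.Agent.NUF.Gas.Poly
import Pool.Agent.NUF.Gas.Fuse

/-!
# The charge sum is a polynomial in every line, part 2: the other poles, division, degree
-/

open Polynomial Filter Topology

namespace NUGas

variable {η σ om : ℂ}

open Fuse in
lemma NF (hη : η ^ 4 = -1) {t y : ℂ} (h : Sep η t y) (c : SignType) :
    F η .neg c (η * t) y * F η .pos c t y =
      (η⁻¹) ^ (c : ℤ) * (1 * (F η .zero c (η * t) y * F η .zero c t y)) := by
  have h0 := eta_ne hη
  have h8 := eta8 hη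
  have n0 : lin η 0 t y ≠ 0 := sub_ne_zero.mpr (h 0)
  have n1 : lin η 1 t y ≠ 0 := sub_ne_zero.mpr (h 1)
  have n2 : lin η 2 t y ≠ 0 := sub_ne_zero.mpr (h 2)
  have n3 : lin η 3 t y ≠ 0 := sub_ne_zero.mpr (h 3)
  have n4 : lin η 4 t y ≠ 0 := sub_ne_zero.mpr (h 4)
  have n5 : lin η 5 t y ≠ 0 := sub_ne_zero.mpr (h 5)
  have n6 : lin η 6 t y ≠ 0 := sub_ne_zero.mpr (h 6)
  have n7 : lin η 7 t y ≠ 0 := sub_ne_zero.mpr (h 7)
  rcases c with _ | _ | _
  · simp only [cz, F, s1, Nat.reduceAdd, l8 hη]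
    field_simp
    linear_combination h8
  · simp only [cn, F, s1, Nat.reduceAdd, inv_inv]
    field_simp
  · simp only [cp, F, s1, Nat.reduceAdd, l8 hη]
    field_simp
    rw [h8]

open Fuse in
lemma NG (hη : η ^ 4 = -1) (t y : ℂ) (c : SignType) :
    G η .neg c (η * t) y * G η .pos c t y =
      η ^ (c : ℤ) * (1 * (G η .zero c (η * t) y * G η .zero c t y)) := by
  have h0 := eta_ne hη
  have h8 := eta8 hη
  rcases c with _ | _ | _
  · simp only [cz, G, s1, Nat.reduceAdd]
    field_simp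
    rw [h8, one_mul]
  · simp only [cn, G, s1, Nat.reduceAdd]
    field_simp
    rw [h8, one_mul]
  · simp only [cp, G, s1, Nat.reduceAdd]
    field_simp

lemma SS_comm (r x : ℂ) (X Y : List ℂ) (a b : SignType) :
    SS η σ om r x X Y a b = SS η σ om x r X Y b a := by
  unfold SS
  refine sch_congr fun e _ => sch_congr fun f _ => ?_
  rw [mul_comm (one η σ r a e f), add_comm (a : ℤ)]

/-- charges `(-, +)` of the lines `η * t`, `t` against charges `(0, 0)` -/
lemma SS_pm (hη : η ^ 4 = -1) (t : ℂ) (X Y : List ℂ) (h : ∀ y ∈ X, Sep η t y) :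
    SS η σ om (η * t) t X Y .neg .pos =
      (σ ^ 2 * (η * t ^ 2)) * SS η σ om (η * t) t X Y .zero .zero := by
  have h0 := eta_ne hη
  unfold SS
  rw [← sch_mul_left]
  refine sch_congr fun e he => ?_
  rw [← sch_mul_left]
  refine sch_congr fun f hf => ?_
  have h1 := Fuse.prod_line (P := fun d x => F η .neg d (η * t) x) (Q := fun d x => F η .pos d t x)
    (R := fun d x => F η .zero d (η * t) x * F η .zero d t x) (inv_ne_zero h0) (fun _ => 1)
    (fun x hx d => NF hη (h x hx) d) he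
  have h2 := Fuse.prod_line (P := fun d x => G η .neg d (η * t) x) (Q := fun d x => G η .pos d t x)
    (R := fun d x => G η .zero d (η * t) x * G η .zero d t x) h0 (fun _ => 1)
    (fun x _ d => NG hη t x d) hf
  simp only [List.prod_map_mul, List.map_const', List.prod_replicate, one_pow, one_mul] at h1 h2
  have hk : (((SignType.neg : SignType) : ℤ) + ((SignType.pos : SignType) : ℤ)) = 0 := rfl
  have hk' : (((SignType.zero : SignType) : ℤ) + ((SignType.zero : SignType) : ℤ)) = 0 := rfl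
  rw [hk, hk']
  by_cases hn : (0 : ℤ) + tot e = tot f
  · have h3 : (η⁻¹) ^ tot e * η ^ tot f = 1 := by
      rw [← hn, zero_add, ← mul_zpow, inv_mul_cancel₀ h0, one_zpow]
    unfold one
    simp only [wt]
    calc _ = (σ ^ 2 * (η * t ^ 2)) *
          ((e.map (fun d => F η .neg d.2 (η * t) d.1)).prod *
            (e.map (fun d => F η .pos d.2 t d.1)).prod) *
          ((f.map (fun d => G η .neg d.2 (η * t) d.1)).prod *
            (f.map (fun d => G η .pos d.2 t d.1)).prod) *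
          rest η σ om 0 e f := by ring
      _ = ((η⁻¹) ^ tot e * η ^ tot f) * ((σ ^ 2 * (η * t ^ 2)) *
          ((e.map (fun d => F η .zero d.2 (η * t) d.1)).prod *
            (e.map (fun d => F η .zero d.2 t d.1)).prod) *
          ((f.map (fun d => G η .zero d.2 (η * t) d.1)).prod *
            (f.map (fun d => G η .zero d.2 t d.1)).prod) *
          rest η σ om 0 e f) := by rw [h1, h2]; ring
      _ = _ := by rw [h3]; ring
  · have : rest η σ om 0 e f = 0 := by unfold rest; rw [if_neg hn]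
    rw [this]; ring

lemma root1 (hη : η ^ 4 = -1) (hσ : σ ^ 2 = 2 - η + η ^ 3) {x : ℂ} {X : List ℂ} (Y : List ℂ)
    (h : Gen η (x :: X)) : (RP η σ om (x :: X) Y).eval (η * x) = 0 := by
  have hg : Good η (η * x) X := by have := (h.scale hη 1).good hη; rwa [pow_one] at this
  rw [RP_eval_cons hη Y hg]
  have hl : ∀ k, lin η k (η * x) x = (η ^ (k + 1) - 1) * x := fun k => by unfold lin; ring
  have z7 : lin η 7 (η * x) x = 0 := by rw [hl, show 7 + 1 = 8 from rfl, eta8 hη]; ring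
  have key : ∑ a : SignType, ∑ b : SignType, (FP η a b x).eval (η * x) *
      SS η σ om (η * x) x X Y a b = 0 := by
    simp only [sum3, FP, eval_mul, eval_C, LP_eval, z7, zero_mul, mul_zero, zero_add, add_zero]
    rw [SS_pm hη x X Y (fun y hy => h.sep hy), hσ]
    simp only [hl, Nat.reduceAdd]
    linear_combination (x ^ 5 * SS η σ om (η * x) x X Y .zero .zero * (-1 + η + η ^ 3 + η ^ 4
      - 2 * η ^ 5 - η ^ 6 - η ^ 7 + η ^ 8 + η ^ 9 + η ^ 10 - η ^ 13 - η ^ 16 + η ^ 17)) * hη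
  rw [key, mul_zero]

lemma root7 (hη : η ^ 4 = -1) (hσ : σ ^ 2 = 2 - η + η ^ 3) {x : ℂ} {X : List ℂ} (Y : List ℂ)
    (h : Gen η (x :: X)) : (RP η σ om (x :: X) Y).eval (η ^ 7 * x) = 0 := by
  have hg : Good η (η ^ 7 * x) X := (h.scale hη 7).good hη
  have hs : ∀ y ∈ X, Sep η (η ^ 7 * x) y := fun y hy => (h.sep hy).mul_left 7
  obtain ⟨z, hz⟩ : ∃ z, z = η ^ 7 * x := ⟨_, rfl⟩
  have hx : x = η * z := by
    rw [hz, ← mul_assoc, ← pow_succ', eta8 hη, one_mul]
  rw [← hz] at hg hs ⊢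
  rw [hx]
  rw [RP_eval_cons hη Y hg]
  have hl : ∀ k, lin η k z (η * z) = (η ^ k - η) * z := fun k => by unfold lin; ring
  have z1 : lin η 1 z (η * z) = 0 := by rw [hl]; ring
  have key : ∑ a : SignType, ∑ b : SignType, (FP η a b (η * z)).eval z *
      SS η σ om z (η * z) X Y a b = 0 := by
    simp only [sum3, FP, eval_mul, eval_C, LP_eval, z1, zero_mul, mul_zero, zero_add, add_zero]
    rw [SS_comm z (η * z) X Y .pos .neg, SS_comm z (η * z) X Y .zero .zero, SS_pm hη z X Y hs, hσ]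
    simp only [hl]
    linear_combination (z ^ 5 * SS η σ om (η * z) z X Y .zero .zero * (η ^ 4 - 2 * η ^ 5
      - 2 * η ^ 8 + 3 * η ^ 9 + η ^ 10 + 2 * η ^ 12 - 3 * η ^ 14 + η ^ 15 - η ^ 16 - 2 * η ^ 17
      + 2 * η ^ 18 - η ^ 19 + η ^ 21)) * hη
  rw [key, mul_zero]

/-- the numerator vanishes at all possible poles -/
lemma RP_root (hη : η ^ 4 = -1) (hσ : σ ^ 2 = 2 - η + η ^ 3) {X : List ℂ} (Y : List ℂ)
    (h : Gen η X) {t : ℂ} (ht : t ∈ bad η X) : (RP η σ om X Y).eval t = 0 := by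
  obtain ⟨x, hx, h1⟩ := mem_bad ht
  obtain ⟨s, t', rfl⟩ := List.append_of_mem hx
  have hp : (s ++ x :: t').Perm (x :: (s ++ t')) := List.perm_middle
  rw [RP_perm hη Y hp]
  have hG := h.perm hη hp
  rcases h1 with rfl | rfl | rfl
  · exact root0 hη Y hG
  · exact root7 hη hσ Y hG
  · rw [pow_one]; exact root1 hη hσ Y hG

lemma DP_dvd (hη : η ^ 4 = -1) (hσ : σ ^ 2 = 2 - η + η ^ 3) {X : List ℂ} (Y : List ℂ)
    (h : Gen η X) : DP η X ∣ RP η σ om X Y :=
  list_dvd (nodup_bad hη h) fun _ ht => RP_root hη hσ Y h ht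

end NUGas
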