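import Pool.Agent.NUF.Gas.Defs

open Polynomial Filter Topology

namespace NUGas

variable {η : ℂ}

lemma eta_ne (hη : η ^ 4 = -1) : η ≠ 0 := by
  rintro rfl; norm_num at hη

lemma eta8 (hη : η ^ 4 = -1) : η ^ 8 = 1 := by
  rw [show (8 : ℕ) = 4 * 2 from rfl, pow_mul, hη]; norm_num

lemma eta_pow_mod (hη : η ^ 4 = -1) (k : ℕ) : η ^ k = η ^ (k % 8) := by
  conv_lhs => rw [← Nat.div_add_mod k 8]
  rw [pow_add, pow_mul, eta8 hη, one_pow, one_mul]

lemma eta_pow_ne_one (hη : η ^ 4 = -1) {k : ℕ} (h : k % 8 ≠ 0) : η ^ k ≠ 1 := by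
  rw [eta_pow_mod hη]
  have hk : k % 8 < 8 := Nat.mod_lt _ (by norm_num)
  have h8 := eta8 hη
  intro h1
  have h2 : orderOf η ∣ k % 8 := orderOf_dvd_of_pow_eq_one h1
  have h3 : orderOf η ∣ 2 ^ 3 := orderOf_dvd_of_pow_eq_one (by norm_num; exact h8)
  obtain ⟨j, hj, hj'⟩ := (Nat.dvd_prime_pow Nat.prime_two).1 h3
  have h4 : ¬ orderOf η ∣ 4 := by
    intro h
    have := orderOf_dvd_iff_pow_eq_one.1 h
    rw [hη] at this; norm_num at this
  have h5 : ¬ j ≤ 2 := fun h => h4 (by rw [hj']; exact pow_dvd_pow 2 h)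
  have : j = 3 := by omega
  subst this
  rw [hj'] at h2
  omega

lemma Sep.symm (hη : η ^ 4 = -1) {a b : ℂ} (h : Sep η a b) : Sep η b a := by
  intro k hk
  apply h (7 * k)
  rw [← hk, ← mul_assoc, ← pow_add, show 7 * k + k = 8 * k by ring, pow_mul, eta8 hη, one_pow,
    one_mul]

lemma Sep.mul_left {a b : ℂ} (h : Sep η a b) (k : ℕ) : Sep η (η ^ k * a) b := by
  intro j hj
  apply h (j + k)
  rw [← hj, pow_add]; ring

lemma Sep.mul_right (hη : η ^ 4 = -1) {a b : ℂ} (h : Sep η a b) (k : ℕ) :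
    Sep η a (η ^ k * b) :=
  ((h.symm hη).mul_left k).symm hη

lemma Gen.perm (hη : η ^ 4 = -1) {X X' : List ℂ} (h : X.Perm X') (hX : Gen η X) : Gen η X' :=
  ⟨fun x hx => hX.1 x (h.mem_iff.2 hx), (h.pairwise_iff (fun {_ _} h => Sep.symm hη h)).1 hX.2⟩

lemma Gen.tail {p : ℂ} {X : List ℂ} (h : Gen η (p :: X)) : Gen η X :=
  ⟨fun x hx => h.1 x (List.mem_cons_of_mem _ hx), (List.pairwise_cons.1 h.2).2⟩

lemma Gen.head {p : ℂ} {X : List ℂ} (h : Gen η (p :: X)) : p ≠ 0 := h.1 p List.mem_cons_self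

lemma Gen.sep {p x : ℂ} {X : List ℂ} (h : Gen η (p :: X)) (hx : x ∈ X) : Sep η p x :=
  (List.pairwise_cons.1 h.2).1 x hx

lemma Gen.good (hη : η ^ 4 = -1) {p : ℂ} {X : List ℂ} (h : Gen η (p :: X)) : Good η p X := by
  intro x hx
  have hs := h.sep hx
  refine ⟨?_, ?_, ?_⟩
  · have := hs 0; simpa using this
  · have := hs 1; simpa using this
  · intro h1
    have := hs 7
    apply this
    rw [h1, ← mul_assoc, ← pow_succ, eta8 hη, one_mul]

lemma Gen.scale {p : ℂ} (hη : η ^ 4 = -1) {X : List ℂ} (h : Gen η (p :: X)) (k : ℕ) :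
    Gen η (η ^ k * p :: X) := by
  refine ⟨?_, List.pairwise_cons.2 ⟨fun x hx => (h.sep hx).mul_left k, h.tail.2⟩⟩
  intro x hx
  rcases List.mem_cons.1 hx with rfl | hx
  · exact mul_ne_zero (pow_ne_zero _ (eta_ne hη)) h.head
  · exact h.1 x (List.mem_cons_of_mem _ hx)

lemma good_scale (hη : η ^ 4 = -1) {x : ℂ} {X : List ℂ} (h : Gen η (x :: X)) {k : ℕ}
    (hk : k % 8 ≠ 0) (hk1 : (k + 1) % 8 ≠ 0) (hk7 : (k + 7) % 8 ≠ 0) :
    Good η (η ^ k * x) (x :: X) := by
  intro y hy
  rcases List.mem_cons.1 hy with rfl | hy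
  · have hx := h.head
    refine ⟨?_, ?_, ?_⟩
    · intro h1
      exact eta_pow_ne_one hη hk (mul_right_cancel₀ hx (by rw [h1, one_mul]))
    · intro h1
      exact eta_pow_ne_one hη hk1 (mul_right_cancel₀ hx (by
        rw [one_mul, pow_succ, mul_comm (η ^ k) η, mul_assoc]; exact h1))
    · intro h1
      apply eta_pow_ne_one hη hk7
      apply mul_right_cancel₀ hx
      calc η ^ (k + 7) * y = η ^ 7 * (η ^ k * y) := by ring
        _ = η ^ 8 * y := by rw [h1]; ring
        _ = 1 * y := by rw [eta8 hη]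
  · exact (h.scale hη k).good hη y hy

/-- the special points for the line `t` with respect to the lines of the same group -/
def rts (η : ℂ) : List ℂ → List ℂ
  | [] => [0]
  | x :: X => (η ^ 3 * x) :: (η ^ 5 * x) :: (η ^ 2 * x) :: (η ^ 6 * x) :: rts η X

lemma length_rts (X : List ℂ) : (rts η X).length = 4 * X.length + 1 := by
  induction X with
  | nil => simp [rts]
  | cons x X ih => simp [rts, ih]; ring

lemma mem_rts {X : List ℂ} {t : ℂ} (h : t ∈ rts η X) :
    t = 0 ∨ ∃ x ∈ X, t = η ^ 3 * x ∨ t = η ^ 5 * x ∨ t = η ^ 2 * x ∨ t = η ^ 6 * x := by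
  induction X with
  | nil => left; simpa [rts] using h
  | cons x X ih =>
    simp only [rts, List.mem_cons] at h
    rcases h with h | h | h | h | h
    · right; exact ⟨x, List.mem_cons_self, Or.inl h⟩
    · right; exact ⟨x, List.mem_cons_self, Or.inr (Or.inl h)⟩
    · right; exact ⟨x, List.mem_cons_self, Or.inr (Or.inr (Or.inl h))⟩
    · right; exact ⟨x, List.mem_cons_self, Or.inr (Or.inr (Or.inr h))⟩
    · rcases ih h with h | ⟨y, hy, h⟩
      · left; exact h
      · right; exact ⟨y, List.mem_cons_of_mem _ hy, h⟩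

lemma pow_mul_inj (hη : η ^ 4 = -1) {x : ℂ} (hx : x ≠ 0) {j k : ℕ} (hjk : j < k) (hk : k < 8) :
    η ^ j * x ≠ η ^ k * x := by
  intro h
  have h1 := mul_right_cancel₀ hx h
  have h2 : η ^ (k - j) = 1 := by
    have : η ^ k = η ^ j * η ^ (k - j) := by rw [← pow_add]; congr 1; omega
    rw [this] at h1
    exact (mul_left_cancel₀ (pow_ne_zero j (eta_ne hη)) (by rw [mul_one]; exact h1.symm))
  exact eta_pow_ne_one hη (by omega) h2

lemma not_mem_rts (hη : η ^ 4 = -1) {x : ℂ} {X : List ℂ} (h : Gen η (x :: X)) (k : ℕ) :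
    η ^ k * x ∉ rts η X := by
  intro hm
  rcases mem_rts hm with h0 | ⟨y, hy, h0⟩
  · exact mul_ne_zero (pow_ne_zero _ (eta_ne hη)) h.head h0
  · have hs := h.sep hy
    rcases h0 with h0 | h0 | h0 | h0
    all_goals
      first
      | exact (((h.sep hy).mul_right hη 3)) k h0
      | exact (((h.sep hy).mul_right hη 5)) k h0
      | exact (((h.sep hy).mul_right hη 2)) k h0
      | exact (((h.sep hy).mul_right hη 6)) k h0

lemma nodup_rts (hη : η ^ 4 = -1) {X : List ℂ} (h : Gen η X) : (rts η X).Nodup := by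
  induction X with
  | nil => simp [rts]
  | cons x X ih =>
    have hx := h.head
    have h23 := pow_mul_inj hη hx (j := 2) (k := 3) (by norm_num) (by norm_num)
    have h25 := pow_mul_inj hη hx (j := 2) (k := 5) (by norm_num) (by norm_num)
    have h26 := pow_mul_inj hη hx (j := 2) (k := 6) (by norm_num) (by norm_num)
    have h35 := pow_mul_inj hη hx (j := 3) (k := 5) (by norm_num) (by norm_num)
    have h36 := pow_mul_inj hη hx (j := 3) (k := 6) (by norm_num) (by norm_num)
    have h56 := pow_mul_inj hη hx (j := 5) (k := 6) (by norm_num) (by norm_num)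
    simp only [rts, List.nodup_cons, List.mem_cons, not_or]
    exact ⟨⟨h35, h23.symm, h36, not_mem_rts hη h 3⟩, ⟨h25.symm, h56, not_mem_rts hη h 5⟩,
      ⟨h26, not_mem_rts hη h 2⟩, not_mem_rts hη h 6, ih h.tail⟩

lemma monic_list_prod' (L : List ℂ[X]) (h : ∀ p ∈ L, p.Monic) : L.prod.Monic := by
  induction L with
  | nil => simp
  | cons a L ih =>
    rw [List.prod_cons]
    exact (h a List.mem_cons_self).mul (ih fun p hp => h p (List.mem_cons_of_mem _ hp))

/-- the product of the linear factors -/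
noncomputable def node (η : ℂ) (X : List ℂ) : ℂ[X] := ((rts η X).map (fun a => Polynomial.X - C a)).prod

lemma node_dvd (hη : η ^ 4 = -1) {X : List ℂ} (h : Gen η X) {d : ℂ[X]}
    (hd : ∀ t ∈ rts η X, d.eval t = 0) : node η X ∣ d := by
  rcases eq_or_ne d 0 with rfl | hd0
  · exact dvd_zero _
  · have hn : ((rts η X : List ℂ) : Multiset ℂ) ≤ d.roots := by
      rw [Multiset.le_iff_subset (by simpa using nodup_rts hη h)]
      intro t ht
      rw [Polynomial.mem_roots hd0]
      exact hd t (by simpa using ht)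
    have := (Multiset.prod_X_sub_C_dvd_iff_le_roots hd0 (rts η X : Multiset ℂ)).2 hn
    simpa [node] using this

lemma node_monic (X : List ℂ) : (node η X).Monic := by
  unfold node
  exact monic_list_prod' _ (by
    intro p hp
    rw [List.mem_map] at hp
    obtain ⟨a, _, rfl⟩ := hp
    exact monic_X_sub_C a)

lemma node_natDegree (X : List ℂ) : (node η X).natDegree = 4 * X.length + 1 := by
  unfold node
  rw [← length_rts (η := η) X]
  generalize rts η X = L
  induction L with
  | nil => simp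
  | cons a L ih =>
    rw [List.map_cons, List.prod_cons, Monic.natDegree_mul (monic_X_sub_C a)
      (monic_list_prod' _ (by
        intro p hp
        rw [List.mem_map] at hp
        obtain ⟨a, _, rfl⟩ := hp
        exact monic_X_sub_C a)), ih, natDegree_X_sub_C]
    simp; ring

end NUGas
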